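import Pool.Agent.H45.DA.KGen
import Pool.Agent.H53.DA.Hat
import Pool.Agent.H53.DA.K2
import Pool.Agent.H53.DA.Tr

/-!
# Class (A), static side: the kernel form of `Gq`
-/

set_option autoImplicit false
open Real Set MeasureTheory Filter Topology

namespace Pool.Agent.H45.DA
open Pool.Agent.H45.FL Pool.Agent.H51.DG Pool.Agent.H45.DY Pool.Agent.H90.DC Pool.Agent.H90.DA
open Pool.Agent.H53.DA

/-! ## Elementary bounds of `gg` -/

theorem gk_log {t : ℝ} (h0 : 0 ≤ t) (h1 : t < 1) :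
    0 ≤ -Real.log (1 - t) ∧ -Real.log (1 - t) ≤ t / (1 - t) := by
  have h2 : 0 < 1 - t := by linarith
  constructor
  · have := Real.log_nonpos h2.le (by linarith)
    linarith
  · have := Real.one_sub_inv_le_log_of_pos h2
    have e : t / (1 - t) = (1 - t)⁻¹ - 1 := by
      field_simp
      ring
    rw [e]
    linarith

theorem gb3 {q Y z : ℝ} (hq : 0 ≤ q) (hY : q < Y) (h0 : 0 ≤ z) (hz : z < Y) :
    |(Y - q) * gg q Y z| * (Y - z) ≤ (1 + Y ^ 2) * ((Y - q) * z) := by
  have hY0 : 0 < Y := lt_of_le_of_lt hq hY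
  have hYz : 0 < Y - z := by linarith
  have hv : 0 < Y - q := by linarith
  obtain ⟨l0, l1⟩ := gk_log (t := z / Y) (div_nonneg h0 hY0.le) ((div_lt_one hY0).2 hz)
  have e1 : z / Y / (1 - z / Y) = z / (Y - z) := by
    field_simp
  rw [e1] at l1
  have r0 : 0 ≤ (Y - q) * z / (Y * (Y - z)) := by positivity
  have r1 : (Y - q) * z / (Y * (Y - z)) ≤ z / (Y - z) := by
    rw [div_le_div_iff₀ (by positivity) hYz]
    have : (Y - q) * z ≤ Y * z := mul_le_mul_of_nonneg_right (by linarith) h0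
    nlinarith
  have h5 : |-Real.log (1 - z / Y) - (Y - q) * z / (Y * (Y - z))| ≤ z / (Y - z) := by
    rw [abs_le]
    constructor <;> linarith
  unfold gg
  rw [abs_mul, abs_mul, abs_of_pos hv, abs_of_pos (by positivity : 0 < 1 + Y ^ 2)]
  calc (Y - q) * ((1 + Y ^ 2) * |-Real.log (1 - z / Y) - (Y - q) * z / (Y * (Y - z))|) * (Y - z)
      ≤ (Y - q) * ((1 + Y ^ 2) * (z / (Y - z))) * (Y - z) := by
        refine mul_le_mul_of_nonneg_right (mul_le_mul_of_nonneg_left
          (mul_le_mul_of_nonneg_left h5 (by positivity)) hv.le) hYz.le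
    _ = _ := by field_simp

theorem gb1 {q Y z : ℝ} (hq : 0 ≤ q) (hY : q < Y) (h0 : 0 ≤ z) (hz : z ≤ q) :
    |(Y - q) * gg q Y z| ≤ (1 + Y ^ 2) * Y := by
  have h := gb3 hq hY h0 (lt_of_le_of_lt hz hY)
  have hYz : 0 < Y - z := by linarith
  have hv : 0 < Y - q := by linarith
  have h2 : (1 + Y ^ 2) * ((Y - q) * z) ≤ (1 + Y ^ 2) * Y * (Y - z) := by
    rw [mul_assoc (1 + Y ^ 2) Y]
    refine mul_le_mul_of_nonneg_left ?_ (by positivity)
    calc (Y - q) * z ≤ (Y - z) * Y := mul_le_mul (by linarith) (by linarith) h0 hYz.le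
      _ = _ := by ring
  exact le_of_mul_le_mul_right (h.trans h2) hYz

theorem gb2 {q Y z : ℝ} (hq : 0 ≤ q) (hY : q < Y) (hz : z < 0) :
    |(Y - q) * gg q Y z| ≤ (1 + Y ^ 2) * (-z + Y) := by
  have hY0 : 0 < Y := lt_of_le_of_lt hq hY
  have hv : 0 < Y - q := by linarith
  have hYz : 0 < Y - z := by linarith
  obtain ⟨t, ht⟩ : ∃ t, t = -z / Y := ⟨_, rfl⟩
  have ht0 : 0 < t := by rw [ht]; exact div_pos (by linarith) hY0
  have e1 : 1 - z / Y = 1 + t := by rw [ht]; ring
  have l0 : 0 ≤ Real.log (1 + t) := Real.log_nonneg (by linarith)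
  have l1 : Real.log (1 + t) ≤ t := by
    have := Real.log_le_sub_one_of_pos (by linarith : 0 < 1 + t)
    linarith
  have e2 : -((Y - q) * z / (Y * (Y - z))) = (Y - q) * (-z) / (Y * (Y - z)) := by ring
  have r0 : 0 ≤ (Y - q) * (-z) / (Y * (Y - z)) :=
    div_nonneg (mul_nonneg hv.le (by linarith)) (by positivity)
  have r1 : (Y - q) * (-z) / (Y * (Y - z)) ≤ 1 := by
    rw [div_le_one (by positivity)]
    exact mul_le_mul (by linarith) (by linarith) (by linarith) hY0.le
  have h5 : |-Real.log (1 - z / Y) - (Y - q) * z / (Y * (Y - z))| ≤ t + 1 := by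
    rw [e1, sub_eq_add_neg, e2, abs_le]
    constructor <;> linarith
  unfold gg
  rw [abs_mul, abs_mul, abs_of_pos hv, abs_of_pos (by positivity : 0 < 1 + Y ^ 2)]
  calc (Y - q) * ((1 + Y ^ 2) * |-Real.log (1 - z / Y) - (Y - q) * z / (Y * (Y - z))|)
      ≤ Y * ((1 + Y ^ 2) * (t + 1)) := by
        refine mul_le_mul (by linarith) (mul_le_mul_of_nonneg_left h5 (by positivity))
          (by positivity) hY0.le
    _ = _ := by
        rw [ht]
        field_simp

/-- near - near -/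
theorem gnn {q v w : ℝ} (hq : 0 ≤ q) (hv : 0 < v) (hw : 0 < w) (hne : v ≠ w) :
    v * (gg q (v + q) (w + q) - gg q (v + q) q) + w * (gg q (w + q) (v + q) - gg q (w + q) q) =
      -kQ q v w := by
  have hY : 0 < v + q := by linarith
  have hZ : 0 < w + q := by linarith
  have h1 : v - w ≠ 0 := sub_ne_zero.2 hne
  have h1' : w - v ≠ 0 := sub_ne_zero.2 hne.symm
  have l1 : Real.log (1 - (w + q) / (v + q)) = Real.log (1 - w / v) + Real.log v -
      Real.log (v + q) := by
    have e1 : 1 - (w + q) / (v + q) = (v - w) / (v + q) := by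
      field_simp
      ring
    have e2 : 1 - w / v = (v - w) / v := by
      field_simp
    rw [e1, e2, Real.log_div h1 hY.ne', Real.log_div h1 hv.ne']
    ring
  have l2 : Real.log (1 - (v + q) / (w + q)) = Real.log (1 - v / w) + Real.log w -
      Real.log (w + q) := by
    have e1 : 1 - (v + q) / (w + q) = (w - v) / (w + q) := by
      field_simp
      ring
    have e2 : 1 - v / w = (w - v) / w := by
      field_simp
    rw [e1, e2, Real.log_div h1' hZ.ne', Real.log_div h1' hw.ne']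
    ring
  have l3 : Real.log (1 - q / (v + q)) = Real.log v - Real.log (v + q) := by
    have e1 : 1 - q / (v + q) = v / (v + q) := by
      field_simp
      ring
    rw [e1, Real.log_div hv.ne' hY.ne']
  have l4 : Real.log (1 - q / (w + q)) = Real.log w - Real.log (w + q) := by
    have e1 : 1 - q / (w + q) = w / (w + q) := by
      field_simp
      ring
    rw [e1, Real.log_div hw.ne' hZ.ne']
  unfold gg kQ k3 Pool.Agent.H53.DA.k2 l1k
  rw [l1, l2, l3, l4]
  generalize Real.log (1 - w / v) = A at *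
  generalize Real.log (1 - v / w) = B at *
  generalize Real.log v = C at *
  generalize Real.log w = D at *
  generalize Real.log (v + q) = E at *
  generalize Real.log (w + q) = G at *
  have e1 : v + q - (w + q) = v - w := by ring
  have e2 : w + q - (v + q) = w - v := by ring
  have e3 : v + q - q = v := by ring
  have e4 : w + q - q = w := by ring
  rw [e1, e2, e3, e4]
  have r1 : v * (w + q) / ((v + q) * (v - w)) = 1 / (v - w) * w + q / (v + q) := by
    field_simp
    ring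
  have r2 : w * (v + q) / ((w + q) * (w - v)) = 1 / (w - v) * v + q / (w + q) := by
    field_simp
    ring
  have r3 : v * q / ((v + q) * v) = q / (v + q) := by field_simp
  have r4 : w * q / ((w + q) * w) = q / (w + q) := by field_simp
  rw [r1, r2, r3, r4]
  have r5 : 1 / (w - v) = -(1 / (v - w)) := by
    rw [← neg_sub v w, one_div_neg_eq_neg_one_div]
  rw [r5]
  have r6 : 1 / (v - w) * (v - w) = 1 := by field_simp
  generalize 1 / (v - w) = R at *
  linear_combination (v * w * (-(v + w) - 2 * q)) * r6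

/-! ## The pieces of the kernel -/

noncomputable def GA (q : ℝ) (W : ℝ → ℝ) (z : ℝ × ℝ) : ℝ :=
  bR W z.1 * vq q z.1 * (-W z.2) * (gg q (ct z.1) (ct z.2) + hh q (ct z.1))

noncomputable def G1 (q : ℝ) (W : ℝ → ℝ) (z : ℝ × ℝ) : ℝ :=
  if q < ct z.1 ∧ q < ct z.2 then
    bR W z.1 * bR W z.2 * kQ q (ct z.1 - q) (ct z.2 - q) else 0

noncomputable def G2 (q : ℝ) (W : ℝ → ℝ) (z : ℝ × ℝ) : ℝ :=
  bR W z.1 * vq q z.1 * (bR W z.2 * gg q (ct z.1) (min (ct z.2) q) -
    bF W z.2 * gg q (ct z.1) (ct z.2))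

noncomputable def G3 (q : ℝ) (W : ℝ → ℝ) (z : ℝ × ℝ) : ℝ :=
  bR W z.1 * vq q z.1 * hh q (ct z.1) * (-W z.2)

theorem W_parts (W : ℝ → ℝ) (x : ℝ) : -W x = bR W x - bF W x := by
  unfold bR bF
  rcases le_total (W x) 0 with h | h
  · rw [max_eq_left (by linarith : 0 ≤ -W x), max_eq_right h]
    ring
  · rw [max_eq_right (by linarith : -W x ≤ 0), max_eq_left h]
    ring

theorem G_split {q : ℝ} (hq : 0 ≤ q) (W : ℝ → ℝ) {z : ℝ × ℝ} (hz : z ∈ Sq2) (hne : z.1 ≠ z.2) :
    GA q W z + GA q W z.swap =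
      -G1 q W z + (G2 q W z + G2 q W z.swap) + (G3 q W z + G3 q W z.swap) := by
  have hc := SEv_ct_ne hz.1.1 hz.2.1 hz.1.2 hz.2.2 hne
  unfold GA G1 G2 G3
  simp only [Prod.fst_swap, Prod.snd_swap]
  rw [W_parts W z.1, W_parts W z.2]
  unfold vq
  rcases le_or_gt (ct z.1) q with h1 | h1
  · rw [if_neg (fun hh => absurd hh.1 (not_lt.2 h1)), max_eq_right (by linarith : ct z.1 - q ≤ 0),
      min_eq_left h1]
    ring
  · rcases le_or_gt (ct z.2) q with h2 | h2
    · rw [if_neg (fun hh => absurd hh.2 (not_lt.2 h2)), max_eq_right (by linarith : ct z.2 - q ≤ 0),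
        min_eq_left h2]
      ring
    · rw [if_pos ⟨h1, h2⟩, max_eq_left (by linarith : 0 ≤ ct z.1 - q),
        max_eq_left (by linarith : 0 ≤ ct z.2 - q), min_eq_right h1.le, min_eq_right h2.le]
      have := gnn hq (v := ct z.1 - q) (w := ct z.2 - q) (by linarith) (by linarith)
        (fun h => hc (by linarith))
      rw [sub_add_cancel, sub_add_cancel] at this
      linear_combination (bR W z.1 * bR W z.2) * this

/-- one side of the kernel -/
theorem GA_side {q : ℝ} (hq : 0 ≤ q) (W : ℝ → ℝ) {x y : ℝ} (hx : x ∈ Ioo (0:ℝ) (2 * π))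
    (hy : y ∈ Ioo (0:ℝ) (2 * π)) (hne : x ≠ y) :
    4 * (bR W x * Pq q x * (-W y) * ct (x - y) + bR W x * dPq q x * (-W y) *
      (Real.log (Real.sin ((x - y) / 2)) - Real.log (Real.sin (y / 2)))) = GA q W (x, y) := by
  unfold GA vq Pq dPq
  show _ = bR W x * max (ct x - q) 0 * (-W y) * (gg q (ct x) (ct y) + hh q (ct x))
  rcases le_or_gt (ct x) q with h1 | h1
  · rw [max_eq_right (by linarith : ct x - q ≤ 0)]
    ring
  · have hxp : x < π := by
      by_contra hc
      push Not at hc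
      have h2 : ct x ≤ 0 := by
        have hs := SEv_sin hx.1 hx.2
        have hcos : Real.cos (x / 2) ≤ 0 :=
          Real.cos_nonpos_of_pi_div_two_le_of_le (by linarith) (by linarith [hx.2, Real.pi_pos])
        exact div_nonpos_of_nonpos_of_nonneg hcos hs.le
      linarith
    have hsx := SEv_sin hx.1 hx.2
    have hsy := SEv_sin hy.1 hy.2
    have hY := ct_pos hx.1 hxp
    have hc := SEv_ct_ne hx.1 hy.1 hx.2 hy.2 hne
    have hd : ct y - ct x ≠ 0 := sub_ne_zero.2 hc.symm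
    have hd' : ct x - ct y ≠ 0 := sub_ne_zero.2 hc
    have hL : Real.log (Real.sin ((x - y) / 2)) - Real.log (Real.sin (y / 2)) =
        Real.log (1 - ct y / ct x) - Real.log (1 + 1 / ct x ^ 2) / 2 := by
      rw [SEv_sin_sub hsx.ne' hsy.ne', Real.log_mul (mul_ne_zero hsx.ne' hsy.ne') hd,
        Real.log_mul hsx.ne' hsy.ne', SEv_logsub hY hc, SEv_log hx.1 hxp]
      ring
    rw [max_eq_left (by linarith : 0 ≤ ct x - q), hL, SEv_ct_sub hsx.ne' hsy.ne']
    unfold gg hh
    generalize Real.log (1 - ct y / ct x) = A at *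
    generalize Real.log (1 + 1 / ct x ^ 2) = B at *
    generalize ct x = Y at *
    generalize ct y = Z at *
    have hYn : Y ≠ 0 := hY.ne'
    have e1 : (1 + Y * Z) / (Z - Y) = -((1 + Y ^ 2) * Z / (Y * (Y - Z)) + 1 / Y) := by
      have : Z - Y = -(Y - Z) := by ring
      rw [this]
      field_simp
      ring
    rw [e1]
    have e2 : (Y - q) * Z / (Y * (Y - Z)) = (Y - q) * (Z / (Y * (Y - Z))) := by ring
    have e3 : (1 + Y ^ 2) * Z / (Y * (Y - Z)) = (1 + Y ^ 2) * (Z / (Y * (Y - Z))) := by ring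
    have e4 : (Y - q) / Y = (Y - q) * (1 / Y) := by ring
    rw [e2, e3, e4]
    ring

/-! ## Folding -/

theorem ct_nonpos {x : ℝ} (h0 : π ≤ x) (h1 : x < 2 * π) : ct x ≤ 0 := by
  have hs := SEv_sin (by linarith [Real.pi_pos] : 0 < x) h1
  have hcos : Real.cos (x / 2) ≤ 0 :=
    Real.cos_nonpos_of_pi_div_two_le_of_le (by linarith) (by linarith [Real.pi_pos])
  exact div_nonpos_of_nonpos_of_nonneg hcos hs.le

theorem ct_refl (x : ℝ) : ct (2 * π - x) = -ct x := by
  have h := SC_ct_per (-x)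
  rw [← SEv_ct_neg, ← h]
  congr 1
  ring

noncomputable def Rf (z : ℝ × ℝ) : ℝ × ℝ :=
  Prod.map (fun x : ℝ => x) (fun x : ℝ => 2 * π - x) z

theorem Rf_mp : MeasurePreserving Rf (volume : Measure (ℝ × ℝ)) volume :=
  (MeasurePreserving.id (volume : Measure ℝ)).prod (Measure.measurePreserving_sub_left volume (2 * π))

theorem Rf_me : MeasurableEmbedding Rf :=
  MeasurableEmbedding.id.prodMap (MeasurableEquiv.subLeft (2 * π)).measurableEmbedding

theorem Rf_pre : Rf ⁻¹' (Ioo (0:ℝ) π ×ˢ Ioo π (2 * π)) = Sq1 := by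
  ext z
  simp only [Rf, Sq1, mem_preimage, mem_prod, mem_Ioo, Prod.map]
  constructor
  · rintro ⟨h1, h2, h3⟩
    exact ⟨h1, by linarith, by linarith⟩
  · rintro ⟨h1, h2, h3⟩
    exact ⟨h1, by linarith, by linarith⟩

/-- folding of the second variable, first variable supported in `(0,π)` -/
theorem fold_snd {g : ℝ × ℝ → ℝ} (hg : IntegrableOn g Sq2)
    (h0 : ∀ z ∈ Sq2, π ≤ z.1 → g z = 0) :
    IntegrableOn (fun z => g z + g (Rf z)) Sq1 ∧
    ∫ z in Sq2, g z = ∫ z in Sq1, (g z + g (Rf z)) := by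
  have hpi := Real.pi_pos
  have hS1 : MeasurableSet Sq1 := measurableSet_Ioo.prod measurableSet_Ioo
  have hSr : MeasurableSet (Ioo (0:ℝ) π ×ˢ Ioo π (2 * π)) :=
    measurableSet_Ioo.prod measurableSet_Ioo
  have hI1 : IntegrableOn g Sq1 := hg.mono_set fun z hz =>
    ⟨⟨hz.1.1, by linarith [hz.1.2]⟩, ⟨hz.2.1, by linarith [hz.2.2]⟩⟩
  have hIr : IntegrableOn g (Ioo (0:ℝ) π ×ˢ Ioo π (2 * π)) := hg.mono_set fun z hz =>
    ⟨⟨hz.1.1, by linarith [hz.1.2]⟩, ⟨by linarith [hz.2.1], hz.2.2⟩⟩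
  have hIf : IntegrableOn (fun z => g (Rf z)) Sq1 := by
    have := Rf_mp.integrableOn_comp_preimage Rf_me (f := g) (s := Ioo (0:ℝ) π ×ˢ Ioo π (2 * π))
    rw [Rf_pre] at this
    exact this.2 hIr
  have hEf : ∫ z in Sq1, g (Rf z) = ∫ z in Ioo (0:ℝ) π ×ˢ Ioo π (2 * π), g z := by
    have := Rf_mp.setIntegral_preimage_emb Rf_me g (Ioo (0:ℝ) π ×ˢ Ioo π (2 * π))
    rw [Rf_pre] at this
    exact this
  refine ⟨hI1.add hIf, ?_⟩
  rw [integral_add hI1 hIf, hEf, ← setIntegral_union ?_ hSr hI1 hIr]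
  · -- compare the domains
    have hsub : Sq1 ∪ Ioo (0:ℝ) π ×ˢ Ioo π (2 * π) ⊆ Sq2 := by
      rintro z (hz | hz)
      · exact ⟨⟨hz.1.1, by linarith [hz.1.2]⟩, ⟨hz.2.1, by linarith [hz.2.2]⟩⟩
      · exact ⟨⟨hz.1.1, by linarith [hz.1.2]⟩, ⟨by linarith [hz.2.1], hz.2.2⟩⟩
    have hnull : ∀ᵐ z : ℝ × ℝ, z.2 ≠ π := by
      have h1 : (volume : Measure (ℝ × ℝ)) {z | z.2 = π} = 0 := by
        have : {z : ℝ × ℝ | z.2 = π} = univ ×ˢ {π} := by
          ext z
          simp
        rw [this, Measure.volume_eq_prod, Measure.prod_prod]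
        simp
      rw [ae_iff]
      simpa using h1
    refine setIntegral_eq_of_subset_of_ae_sdiff_eq_zero
      (measurableSet_Ioo.prod measurableSet_Ioo).nullMeasurableSet hsub ?_
    filter_upwards [hnull] with z hz hzd
    apply h0 z hzd.1
    by_contra hc
    push Not at hc
    apply hzd.2
    rcases lt_or_gt_of_ne hz with h1 | h1
    · exact Or.inl ⟨⟨hzd.1.1.1, hc⟩, ⟨hzd.1.2.1, h1⟩⟩
    · exact Or.inr ⟨⟨hzd.1.1.1, hc⟩, ⟨h1, hzd.1.2.2⟩⟩
  · rw [Set.disjoint_left]
    intro z hz1 hz2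
    have a := hz1.2.2
    have b := hz2.2.1
    exact absurd a (not_lt.2 b.le)

/-! ## Bounds and integrability -/

theorem finv_kQ {q : ℝ} {b : ℝ → ℝ} (hb : Bd b) : FInt b b (kQ q) := by
  have h3 := (form_k3 hb).1
  have h2 := (Pool.Agent.H53.DA.form_k2 hb).1
  have h1 := (form_l1k hb).1
  unfold FInt at h1 h2 h3 ⊢
  refine ((h3.add (h2.const_mul (2 * q))).add (h1.const_mul (1 + q ^ 2))).congr ?_
  refine Filter.Eventually.of_forall fun z => ?_
  show b z.1 * b z.2 * k3 (ct z.1) (ct z.2) + 2 * q * (b z.1 * b z.2 *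
    Pool.Agent.H53.DA.k2 (ct z.1) (ct z.2)) + (1 + q ^ 2) * (b z.1 * b z.2 *
    l1k (ct z.1) (ct z.2)) = b z.1 * b z.2 * kQ q (ct z.1) (ct z.2)
  unfold kQ
  ring

/-- data of a function vanishing near `0` -/
theorem van_data {W : ℝ → ℝ} {p : ℝ} (h : Van W p) : ∃ B s0 : ℝ, 0 ≤ B ∧ 0 < s0 ∧
    (∀ x, |W x| ≤ B) ∧ ∀ x, 0 < x → x < 2 * π → W x ≠ 0 → s0 ≤ Real.sin (x / 2) := by
  obtain ⟨B, hB⟩ := (SD_BL_W h.per h.lip).bd
  obtain ⟨δ0, hδ0, hv0⟩ := h.van
  have hpi : (3:ℝ) < π := Real.pi_gt_three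
  have hδ : 0 < min δ0 1 := lt_min hδ0 one_pos
  have hδ1 : min δ0 1 ≤ 1 := min_le_right _ _
  refine ⟨B, Real.sin (min δ0 1 / 2), (abs_nonneg _).trans (hB 0),
    Real.sin_pos_of_pos_of_lt_pi (by linarith) (by linarith), hB, fun x a b c => ?_⟩
  exact SD_sin_ge h.per hδ (fun x hx => hv0 x (hx.trans (min_le_left _ _))) a b c

theorem ct_le_inv {x s0 : ℝ} (hs : 0 < s0) (h : s0 ≤ Real.sin (x / 2)) : |ct x| ≤ 1 / s0 := by
  unfold ct
  have h1 : 0 < Real.sin (x / 2) := hs.trans_le h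
  rw [abs_div, abs_of_pos h1]
  exact div_le_div₀ zero_le_one (Real.abs_cos_le_one _) hs h

theorem ct_sub_ge {x y : ℝ} (hx : 0 < x) (hxy : x < y) (hy : y ≤ π) :
    y - x ≤ π * (ct x - ct y) := by
  have hpi := Real.pi_pos
  have hsx := SEv_sin hx (by linarith : x < 2 * π)
  have hsy := SEv_sin (hx.trans hxy) (by linarith : y < 2 * π)
  have h1 := SEv_sin_sub (x := y) (y := x) hsy.ne' hsx.ne'
  have h2 := Real.mul_le_sin (x := (y - x) / 2) (by linarith) (by linarith)
  have h3 : 0 < ct x - ct y := sub_pos.2 (ct_lt hx hxy (by linarith))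
  have h4 : Real.sin (y / 2) * Real.sin (x / 2) ≤ 1 := by
    calc Real.sin (y / 2) * Real.sin (x / 2) ≤ 1 * 1 :=
          mul_le_mul (Real.sin_le_one _) (Real.sin_le_one _) hsx.le zero_le_one
      _ = 1 := one_mul 1
  have h5 : Real.sin ((y - x) / 2) ≤ ct x - ct y := by
    rw [h1]
    calc Real.sin (y / 2) * Real.sin (x / 2) * (ct x - ct y) ≤ 1 * (ct x - ct y) :=
          mul_le_mul_of_nonneg_right h4 h3.le
      _ = _ := one_mul _
  have h6 : (y - x) = π * (2 / π * ((y - x) / 2)) := by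
    field_simp
  rw [h6]
  exact mul_le_mul_of_nonneg_left (h2.trans h5) hpi.le

theorem G2_bound {W : ℝ → ℝ} {p q : ℝ} (h : Van W p) (hq : 0 ≤ q) :
    ∃ C : ℝ, ∀ z ∈ Sq2, |G2 q W z| ≤ C := by
  obtain ⟨B, s0, hB0, hs0, hB, hsin⟩ := van_data h
  obtain ⟨K, hK⟩ := h.lip
  have hK0 := hK.nonneg
  have hpi := Real.pi_pos
  obtain ⟨Y0, hY0d⟩ : ∃ Y0, Y0 = 1 / s0 := ⟨_, rfl⟩
  have hY0 : 0 < Y0 := by rw [hY0d]; positivity
  have hr1 : 0 ≤ B * (B * ((1 + Y0 ^ 2) * (Y0 + Y0))) := by positivity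
  have hr2 : 0 ≤ B * (K * (π * ((1 + Y0 ^ 2) * (Y0 * Y0)))) := by positivity
  refine ⟨B * (B * ((1 + Y0 ^ 2) * (Y0 + Y0))) + B * (K * (π * ((1 + Y0 ^ 2) * (Y0 * Y0)))),
    fun z hz => ?_⟩
  have hr : 0 ≤ B * (B * ((1 + Y0 ^ 2) * (Y0 + Y0))) +
    B * (K * (π * ((1 + Y0 ^ 2) * (Y0 * Y0)))) := add_nonneg hr1 hr2
  unfold G2
  rcases le_or_gt 0 (W z.1) with hW1 | hW1
  · have : bR W z.1 = 0 := max_eq_right (by linarith)
    rw [this]
    simpa using hr
  rcases le_or_gt (ct z.1) q with hYq | hYq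
  · have : vq q z.1 = 0 := max_eq_right (by linarith)
    rw [this]
    simpa using hr
  have e1 : bR W z.1 = -W z.1 := max_eq_left (by linarith)
  have e2 : vq q z.1 = ct z.1 - q := max_eq_left (by linarith)
  have hb1 : |bR W z.1| ≤ B := by
    rw [e1, abs_neg]
    exact hB _
  have hY1 : |ct z.1| ≤ Y0 := by
    rw [hY0d]
    exact ct_le_inv hs0 (hsin _ hz.1.1 hz.1.2 hW1.ne)
  have hYpos : 0 < ct z.1 := lt_of_le_of_lt hq hYq
  have hY2 : ct z.1 ≤ Y0 := (le_abs_self _).trans hY1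
  have hsq : 1 + ct z.1 ^ 2 ≤ 1 + Y0 ^ 2 := by
    have := pow_le_pow_left₀ hYpos.le hY2 2
    linarith
  have hp1 : z.1 < p := by
    by_contra hc
    push Not at hc
    have := h.pos z.1 ⟨hc, hz.1.2.le⟩
    linarith
  rcases lt_trichotomy (W z.2) 0 with hW2 | hW2 | hW2
  · have f1 : bR W z.2 = -W z.2 := max_eq_left (by linarith)
    have f2 : bF W z.2 = 0 := max_eq_right hW2.le
    have hb2 : |bR W z.2| ≤ B := by
      rw [f1, abs_neg]
      exact hB _
    have hZ1 : |ct z.2| ≤ Y0 := by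
      rw [hY0d]
      exact ct_le_inv hs0 (hsin _ hz.2.1 hz.2.2 hW2.ne)
    rw [f2, zero_mul, sub_zero, e2]
    have key : |(ct z.1 - q) * gg q (ct z.1) (min (ct z.2) q)| ≤ (1 + Y0 ^ 2) * (Y0 + Y0) := by
      rcases le_or_gt 0 (ct z.2) with hZ | hZ
      · refine (gb1 hq hYq (le_min hZ hq) (min_le_right _ _)).trans ?_
        exact mul_le_mul hsq (by linarith) hYpos.le (by positivity)
      · rw [min_eq_left (by linarith)]
        refine (gb2 hq hYq hZ).trans ?_
        have := (abs_le.1 hZ1).1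
        exact mul_le_mul hsq (by linarith) (by linarith) (by positivity)
    have e5 : bR W z.1 * (ct z.1 - q) * (bR W z.2 * gg q (ct z.1) (min (ct z.2) q)) =
      bR W z.1 * (bR W z.2 * ((ct z.1 - q) * gg q (ct z.1) (min (ct z.2) q))) := by ring
    rw [e5, abs_mul, abs_mul (bR W z.2)]
    have := mul_le_mul hb1 (mul_le_mul hb2 key (abs_nonneg _) hB0) (by positivity) hB0
    linarith
  · have f1 : bR W z.2 = 0 := by unfold bR; rw [hW2]; simp
    have f2 : bF W z.2 = 0 := by unfold bF; rw [hW2]; simp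
    rw [f1, f2]
    simpa using hr
  · have f1 : bR W z.2 = 0 := max_eq_right (by linarith)
    have f2 : bF W z.2 = W z.2 := max_eq_left hW2.le
    have hZ1 : |ct z.2| ≤ Y0 := by
      rw [hY0d]
      exact ct_le_inv hs0 (hsin _ hz.2.1 hz.2.2 hW2.ne')
    rw [f1, f2, zero_mul, zero_sub, e2]
    have e5 : bR W z.1 * (ct z.1 - q) * (-(W z.2 * gg q (ct z.1) (ct z.2))) =
      -(bR W z.1 * (W z.2 * ((ct z.1 - q) * gg q (ct z.1) (ct z.2)))) := by ring
    rw [e5, abs_neg, abs_mul, abs_mul (W z.2)]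
    rcases lt_or_ge (ct z.2) 0 with hZ | hZ
    · have key : |(ct z.1 - q) * gg q (ct z.1) (ct z.2)| ≤ (1 + Y0 ^ 2) * (Y0 + Y0) := by
        refine (gb2 hq hYq hZ).trans ?_
        have := (abs_le.1 hZ1).1
        exact mul_le_mul hsq (by linarith) (by linarith) (by positivity)
      have := mul_le_mul hb1 (mul_le_mul (hB z.2) key (abs_nonneg _) hB0) (by positivity) hB0
      linarith
    · have hp2 : p < z.2 := by
        by_contra hc
        push Not at hc
        have := h.neg z.2 ⟨hz.2.1.le, hc⟩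
        linarith
      have hz2 : z.2 ≤ π := by
        by_contra hc
        push Not at hc
        have hs := SEv_sin hz.2.1 hz.2.2
        have hcos : Real.cos (z.2 / 2) < 0 := Real.cos_neg_of_pi_div_two_lt_of_lt (by linarith)
          (by linarith [hz.2.2])
        have : ct z.2 < 0 := div_neg_of_neg_of_pos hcos hs
        linarith
      have hWz : |W z.2| ≤ K * (π * (ct z.1 - ct z.2)) := by
        have hWp : W p = 0 := le_antisymm (h.neg p ⟨h.l0.le, le_rfl⟩) (h.pos p ⟨le_rfl, h.l1.le⟩)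
        have h1 := hK z.2 p
        rw [hWp, sub_zero, abs_of_pos (by linarith : 0 < z.2 - p)] at h1
        refine h1.trans (mul_le_mul_of_nonneg_left ?_ hK0)
        have := ct_sub_ge hz.1.1 (by linarith : z.1 < z.2) hz2
        linarith
      have hlt : ct z.2 < ct z.1 := ct_lt hz.1.1 (by linarith) hz.2.2
      have hg := gb3 hq hYq hZ hlt
      have hZ2 : ct z.2 ≤ Y0 := (le_abs_self _).trans hZ1
      have key : |W z.2| * |(ct z.1 - q) * gg q (ct z.1) (ct z.2)| ≤
          K * (π * ((1 + Y0 ^ 2) * (Y0 * Y0))) := by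
        calc |W z.2| * |(ct z.1 - q) * gg q (ct z.1) (ct z.2)| ≤
              K * (π * (ct z.1 - ct z.2)) * |(ct z.1 - q) * gg q (ct z.1) (ct z.2)| :=
              mul_le_mul_of_nonneg_right hWz (abs_nonneg _)
          _ = K * (π * (|(ct z.1 - q) * gg q (ct z.1) (ct z.2)| * (ct z.1 - ct z.2))) := by ring
          _ ≤ K * (π * ((1 + Y0 ^ 2) * (Y0 * Y0))) := by
              refine mul_le_mul_of_nonneg_left (mul_le_mul_of_nonneg_left (hg.trans ?_) hpi.le) hK0
              refine mul_le_mul hsq (mul_le_mul (by linarith) hZ2 hZ hY0.le) ?_ (by positivity)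
              exact mul_nonneg (by linarith) hZ
      have := mul_le_mul hb1 key (by positivity) hB0
      linarith

theorem bR_meas {W : ℝ → ℝ} (hc : Continuous W) : Measurable (bR W) :=
  (hc.measurable.neg).max measurable_const

theorem bF_meas {W : ℝ → ℝ} (hc : Continuous W) : Measurable (bF W) :=
  hc.measurable.max measurable_const

theorem vq_meas (q : ℝ) : Measurable (vq q) := (SC_ct_meas.sub_const q).max measurable_const

theorem gg_meas {q : ℝ} {α : Type*} [MeasurableSpace α] {f g : α → ℝ} (hf : Measurable f)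
    (hg : Measurable g) : Measurable (fun z => gg q (f z) (g z)) := by
  unfold gg
  exact (measurable_const.add (hf.pow_const 2)).mul
    (((measurable_const.sub (hg.div hf)).log.neg).sub
      (((hf.sub_const q).mul hg).div (hf.mul (hf.sub hg))))

theorem hh_meas {q : ℝ} {α : Type*} [MeasurableSpace α] {f : α → ℝ} (hf : Measurable f) :
    Measurable (fun z => hh q (f z)) := by
  unfold hh
  exact (((hf.sub_const q).div hf).neg).add
    (((measurable_const.add (hf.pow_const 2)).mul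
      (measurable_const.add (measurable_const.div (hf.pow_const 2))).log).div_const 2)

theorem G2_int {W : ℝ → ℝ} {p q : ℝ} (h : Van W p) (hq : 0 ≤ q) : IntegrableOn (G2 q W) Sq2 := by
  obtain ⟨C, hC⟩ := G2_bound h hq
  obtain ⟨K, hK⟩ := h.lip
  have hc : Continuous W := hK.continuous
  have hct1 : Measurable (fun z : ℝ × ℝ => ct z.1) := SC_ct_meas.comp measurable_fst
  have hct2 : Measurable (fun z : ℝ × ℝ => ct z.2) := SC_ct_meas.comp measurable_snd
  have hm : Measurable (G2 q W) := by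
    unfold G2
    exact (((bR_meas hc).comp measurable_fst).mul ((vq_meas q).comp measurable_fst)).mul
      ((((bR_meas hc).comp measurable_snd).mul (gg_meas hct1 (hct2.min measurable_const))).sub
        (((bF_meas hc).comp measurable_snd).mul (gg_meas hct1 hct2)))
  have hfin : volume Sq2 ≠ ⊤ := by
    unfold Sq2
    rw [Measure.volume_eq_prod, Measure.prod_prod]
    exact ENNReal.mul_ne_top measure_Ioo_lt_top.ne measure_Ioo_lt_top.ne
  refine Integrable.mono' (integrableOn_const (C := C) hfin) hm.aestronglyMeasurable ?_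
  exact ae_restrict_of_forall_mem measSq2 fun z hz => hC z hz

/-- bound of the universal part -/
theorem hh_bound {q Y : ℝ} (hq : 0 ≤ q) (hY : q < Y) : |(Y - q) * hh q Y| ≤ 2 * (1 + Y) ^ 2 := by
  have hY0 : 0 < Y := lt_of_le_of_lt hq hY
  have hv : 0 < Y - q := by linarith
  have l0 : 0 ≤ Real.log (1 + 1 / Y ^ 2) := Real.log_nonneg (by
    have : 0 < 1 / Y ^ 2 := by positivity
    linarith)
  have l1 : Real.log (1 + 1 / Y ^ 2) ≤ 2 / Y := by
    have h1 : 1 + 1 / Y ^ 2 ≤ (1 + 1 / Y) ^ 2 := by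
      have : (1 + 1 / Y) ^ 2 = 1 + 1 / Y ^ 2 + 2 / Y := by
        field_simp
        ring
      rw [this]
      have : 0 < 2 / Y := by positivity
      linarith
    have h2 := Real.log_le_log (by positivity) h1
    rw [Real.log_pow] at h2
    have h3 := Real.log_le_sub_one_of_pos (by positivity : 0 < 1 + 1 / Y)
    have h4 : 2 / Y = 2 * (1 / Y) := by ring
    rw [h4]
    push_cast at h2
    linarith
  have r0 : 0 ≤ (Y - q) / Y := div_nonneg hv.le hY0.le
  have r1 : (Y - q) / Y ≤ 1 := (div_le_one hY0).2 (by linarith)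
  have h5 : |hh q Y| ≤ 1 + (1 + Y ^ 2) * (2 / Y) / 2 := by
    unfold hh
    have h6 : (1 + Y ^ 2) * Real.log (1 + 1 / Y ^ 2) / 2 ≤ (1 + Y ^ 2) * (2 / Y) / 2 := by
      have := mul_le_mul_of_nonneg_left l1 (by positivity : 0 ≤ 1 + Y ^ 2)
      linarith
    have h7 : 0 ≤ (1 + Y ^ 2) * Real.log (1 + 1 / Y ^ 2) / 2 := by positivity
    rw [abs_le]
    constructor <;> linarith
  rw [abs_mul, abs_of_pos hv]
  calc (Y - q) * |hh q Y| ≤ Y * (1 + (1 + Y ^ 2) * (2 / Y) / 2) :=
        mul_le_mul (by linarith) h5 (abs_nonneg _) hY0.le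
    _ = Y + (1 + Y ^ 2) := by
        field_simp
    _ ≤ _ := by nlinarith

theorem G3_int {W : ℝ → ℝ} {p q : ℝ} (h : Van W p) (hq : 0 ≤ q) : IntegrableOn (G3 q W) Sq2 ∧
    ∫ z in Sq2, G3 q W z =
      -(∫ x in (0:ℝ)..(2 * π), W x) * ∫ x in (0:ℝ)..π, bR W x * vq q x * hh q (ct x) := by
  obtain ⟨B, s0, hB0, hs0, hB, hsin⟩ := van_data h
  obtain ⟨K, hK⟩ := h.lip
  have hc : Continuous W := hK.continuous
  have hpi := Real.pi_pos
  obtain ⟨R, hR⟩ : ∃ R : ℝ → ℝ, R = fun x => bR W x * vq q x * hh q (ct x) := ⟨_, rfl⟩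
  have hRm : Measurable R := by
    rw [hR]
    exact ((bR_meas hc).mul (vq_meas q)).mul (hh_meas SC_ct_meas)
  have hRb : ∀ x ∈ Ioo (0:ℝ) (2 * π), |R x| ≤ B * (2 * (1 + 1 / s0) ^ 2) := by
    intro x hx
    have hr : 0 ≤ B * (2 * (1 + 1 / s0) ^ 2) := by positivity
    rw [hR]
    show |bR W x * vq q x * hh q (ct x)| ≤ _
    rcases le_or_gt 0 (W x) with hW | hW
    · have : bR W x = 0 := max_eq_right (by linarith)
      rw [this]
      simpa using hr
    rcases le_or_gt (ct x) q with hYq | hYq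
    · have : vq q x = 0 := max_eq_right (by linarith)
      rw [this]
      simpa using hr
    have e1 : bR W x = -W x := max_eq_left (by linarith)
    have e2 : vq q x = ct x - q := max_eq_left (by linarith)
    have hY1 : |ct x| ≤ 1 / s0 := ct_le_inv hs0 (hsin _ hx.1 hx.2 hW.ne)
    have hYpos : 0 < ct x := lt_of_le_of_lt hq hYq
    have hY2 : ct x ≤ 1 / s0 := (le_abs_self _).trans hY1
    rw [mul_assoc, abs_mul, e1, abs_neg, e2]
    refine mul_le_mul (hB x) ((hh_bound hq hYq).trans ?_) (abs_nonneg _) hB0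
    have := pow_le_pow_left₀ (by linarith : 0 ≤ 1 + ct x) (by linarith : 1 + ct x ≤ 1 + 1 / s0) 2
    linarith
  have iR : IntegrableOn R (Ioo (0:ℝ) (2 * π)) := by
    refine Integrable.mono' (integrableOn_const (C := B * (2 * (1 + 1 / s0) ^ 2))
      measure_Ioo_lt_top.ne) hRm.aestronglyMeasurable ?_
    exact ae_restrict_of_forall_mem measurableSet_Ioo fun x hx => hRb x hx
  have iW : IntegrableOn (fun y => -W y) (Ioo (0:ℝ) (2 * π)) :=
    (hc.neg.integrableOn_Icc).mono_set Ioo_subset_Icc_self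
  have iP := Integrable.mul_prod iR iW
  have e1 : G3 q W = fun z : ℝ × ℝ => R z.1 * -W z.2 := by
    funext z
    rw [hR]
    rfl
  rw [e1]
  constructor
  · show Integrable _ (volume.restrict Sq2)
    rw [SD_Sq2]
    exact iP
  · rw [SD_Sq2, integral_prod_mul R (fun y => -W y)]
    have e2 : ∫ x in Ioo (0:ℝ) (2 * π), R x = ∫ x in (0:ℝ)..π, bR W x * vq q x * hh q (ct x) := by
      rw [intervalIntegral.integral_of_le hpi.le, integral_Ioc_eq_integral_Ioo]
      have : ∫ x in Ioo (0:ℝ) π, bR W x * vq q x * hh q (ct x) = ∫ x in Ioo (0:ℝ) π, R x := by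
        rw [hR]
      rw [this]
      refine setIntegral_eq_of_subset_of_forall_sdiff_eq_zero measurableSet_Ioo
        (Ioo_subset_Ioo_right (by linarith)) fun x hx => ?_
      rw [hR]
      show bR W x * vq q x * hh q (ct x) = 0
      have hxp : π ≤ x := by
        by_contra hcc
        push Not at hcc
        exact hx.2 ⟨hx.1.1, hcc⟩
      have : vq q x = 0 := max_eq_right (by linarith [ct_nonpos hxp hx.1.2])
      rw [this]
      ring
    rw [e2, integral_neg, intervalIntegral.integral_of_le (by linarith : (0:ℝ) ≤ 2 * π),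
      integral_Ioc_eq_integral_Ioo]
    ring

theorem G1_int {W : ℝ → ℝ} {q : ℝ} (hb : Bd (bR W)) (hq : 0 ≤ q) : IntegrableOn (G1 q W) Sq2 ∧
    ∫ z in Sq2, G1 q W z = form (hat q (bR W)) (hat q (bR W)) (kQ q) := by
  obtain ⟨h1, h2⟩ := int_hat2 hq hq hb hb (kQ q)
  have hpi := Real.pi_pos
  have hS1 : MeasurableSet Sq1 := measurableSet_Ioo.prod measurableSet_Ioo
  have hsub : Sq1 ⊆ Sq2 := fun z hz =>
    ⟨⟨hz.1.1, by linarith [hz.1.2]⟩, ⟨hz.2.1, by linarith [hz.2.2]⟩⟩
  have h3 : IntegrableOn (G1 q W) Sq1 := h1.2 (finv_kQ (bd_hat hq hb))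
  have hz0 : ∀ z ∈ Sq2 \ Sq1, G1 q W z = 0 := by
    intro z hz
    unfold G1
    rw [if_neg]
    rintro ⟨a, b⟩
    apply hz.2
    refine ⟨⟨hz.1.1.1, ?_⟩, ⟨hz.1.2.1, ?_⟩⟩
    · by_contra hc
      push Not at hc
      linarith [ct_nonpos hc hz.1.1.2]
    · by_contra hc
      push Not at hc
      linarith [ct_nonpos hc hz.1.2.2]
  refine ⟨?_, ?_⟩
  · rw [← integrable_indicator_iff measSq2]
    have e : Sq2.indicator (G1 q W) = Sq1.indicator (G1 q W) := by
      funext z
      by_cases hz : z ∈ Sq1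
      · rw [indicator_of_mem hz, indicator_of_mem (hsub hz)]
      · by_cases hz' : z ∈ Sq2
        · rw [indicator_of_notMem hz, indicator_of_mem hz', hz0 z ⟨hz', hz⟩]
        · rw [indicator_of_notMem hz, indicator_of_notMem hz']
    rw [e, integrable_indicator_iff hS1]
    exact h3
  · rw [setIntegral_eq_of_subset_of_forall_sdiff_eq_zero measSq2 hsub hz0]
    exact h2

/-- the functional as the integral of the kernel -/
theorem Gq_int {W : ℝ → ℝ} {p q : ℝ} (h : Van W p) (hq : 0 ≤ q) :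
    IntegrableOn (fun z => GA q W z + GA q W z.swap) Sq2 ∧
    8 * π * Gq q W p = ∫ z in Sq2, (GA q W z + GA q W z.swap) := by
  obtain ⟨B, s0, hB0, hs0, hB, hsin⟩ := van_data h
  obtain ⟨K, hK⟩ := h.lip
  have hc : Continuous W := hK.continuous
  have hpi := Real.pi_pos
  have hBW := SD_BL_W h.per h.lip
  obtain ⟨m, hmd⟩ : ∃ m : ℝ → ℝ, m = fun x => (max |Real.sin (x / 2)| s0)⁻¹ := ⟨_, rfl⟩
  have hm : SD_BL m := by
    rw [hmd]; exact (SD_BL.abssin.maxc s0).inv hs0 (fun x => le_max_right _ _)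
  have hmx : ∀ x, 0 < x → x < 2 * π → W x ≠ 0 → m x = (Real.sin (x / 2))⁻¹ := by
    intro x a b c
    have := hsin x a b c
    rw [hmd]
    show (max |Real.sin (x / 2)| s0)⁻¹ = _
    rw [abs_of_pos (hs0.trans_le this), max_eq_left this]
  obtain ⟨c0, hc0⟩ : ∃ c0 : ℝ → ℝ, c0 = fun x => max (-(-Real.sin x) * (1 / 2 * (m x * m x)) + -q) 0 :=
    ⟨_, rfl⟩
  have hc0L : SD_BL c0 := by
    rw [hc0]
    exact ((SD_BL.negsin.neg.mul ((SD_BL.const _).mul (hm.mul hm))).add (SD_BL.const (-q))).maxc 0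
  obtain ⟨F, hFd⟩ : ∃ F : ℝ → ℝ, F = fun x => max (-W x) 0 * (1 / 4 * (c0 x * c0 x)) := ⟨_, rfl⟩
  have hF : SD_BL F := by
    rw [hFd]
    exact (hBW.neg.maxc 0).mul ((SD_BL.const _).mul (hc0L.mul hc0L))
  have hFx : ∀ x ∈ Ioo (0:ℝ) (2 * π), F x = bR W x * Pq q x := by
    intro x hx
    rw [hFd]
    show max (-W x) 0 * (1 / 4 * (c0 x * c0 x)) = max (-W x) 0 * Pq q x
    by_cases hW : W x = 0
    · rw [hW]; simp
    · have hs := hsin x hx.1 hx.2 hW
      have hs' : 0 < Real.sin (x / 2) := hs0.trans_le hs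
      have e : -(-Real.sin x) * (1 / 2 * (m x * m x)) + -q = ct x - q := by
        rw [hmx x hx.1 hx.2 hW]
        have e3 : Real.sin x = 2 * Real.sin (x / 2) * Real.cos (x / 2) := by
          rw [← Real.sin_two_mul]
          congr 1
          ring
        rw [e3]
        unfold ct
        field_simp
        ring
      rw [hc0]
      show max (-W x) 0 * (1 / 4 * (max (-(-Real.sin x) * (1 / 2 * (m x * m x)) + -q) 0 *
        max (-(-Real.sin x) * (1 / 2 * (m x * m x)) + -q) 0)) = _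
      rw [e]
      unfold Pq
      ring
  obtain ⟨P, hPd⟩ : ∃ P : ℝ → ℝ, P = fun x => bR W x * dPq q x := ⟨_, rfl⟩
  have hdm : Measurable (dPq q) := by
    have hmm : Measurable fun x => max (ct x - q) 0 := (SC_ct_meas.sub_const q).max measurable_const
    exact ((hmm.mul (measurable_const.add (SC_ct_meas.pow_const 2))).div_const 4).neg
  have hPm : Measurable P := by
    rw [hPd]
    exact (bR_meas hc).mul hdm
  have hPb : ∀ x ∈ Ioo (0:ℝ) (2 * π), |P x| ≤ B * (1 / s0 * (1 + (1 / s0) ^ 2)) := by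
    intro x hx
    have hr : 0 ≤ B * (1 / s0 * (1 + (1 / s0) ^ 2)) := by positivity
    rw [hPd]
    show |bR W x * dPq q x| ≤ _
    rcases le_or_gt 0 (W x) with hW | hW
    · have : bR W x = 0 := max_eq_right (by linarith)
      rw [this]
      simpa using hr
    have e1 : bR W x = -W x := max_eq_left (by linarith)
    have hY1 : |ct x| ≤ 1 / s0 := ct_le_inv hs0 (hsin _ hx.1 hx.2 hW.ne)
    rw [abs_mul, e1, abs_neg]
    refine mul_le_mul (hB x) ?_ (abs_nonneg _) hB0
    unfold dPq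
    rw [abs_neg, abs_div, abs_mul, abs_of_nonneg (le_max_right _ _),
      abs_of_pos (by positivity : 0 < 1 + ct x ^ 2), abs_of_pos (by norm_num : (0:ℝ) < 4)]
    have h1 : max (ct x - q) 0 ≤ 1 / s0 :=
      max_le (by linarith [le_abs_self (ct x)]) (by positivity)
    have h2 : 1 + ct x ^ 2 ≤ 1 + (1 / s0) ^ 2 := by
      have := pow_le_pow_left₀ (abs_nonneg _) hY1 2
      rw [sq_abs] at this
      linarith
    have h3 := mul_le_mul h1 h2 (by positivity) (by positivity)
    have h4 : 0 ≤ max (ct x - q) 0 * (1 + ct x ^ 2) :=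
      mul_nonneg (le_max_right _ _) (by positivity)
    linarith
  have hKn : Lip K (fun x => -W x) := by
    intro x y
    have := hK x y
    rw [neg_sub_neg, abs_sub_comm]
    exact this
  have hpn : Function.Periodic (fun x => -W x) (2 * π) := by
    intro x
    show -W (x + 2 * π) = -W x
    rw [h.per x]
  obtain ⟨k1, k2⟩ := kernel_gen hpn hKn hF hPm hPb
  -- pointwise
  have hpt : ∀ᵐ z : ℝ × ℝ ∂(volume.restrict Sq2),
      4 * ((F z.1 * -W z.2 - F z.2 * -W z.1) * ct (z.1 - z.2) +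
        (GLk (fun x => -W x) P z + GLk (fun x => -W x) P z.swap)) =
      GA q W z + GA q W z.swap := by
    have h1 : ∀ᵐ z : ℝ × ℝ ∂(volume.restrict Sq2), z.1 ≠ z.2 := ae_restrict_of_ae NG_diag_ae
    have h2 : ∀ᵐ z : ℝ × ℝ ∂(volume.restrict Sq2), z ∈ Sq2 := ae_restrict_mem measSq2
    filter_upwards [h1, h2] with z hz1 hz2
    have s1 := GA_side hq W hz2.1 hz2.2 hz1
    have s2 := GA_side hq W hz2.2 hz2.1 hz1.symm
    rw [hFx _ hz2.1, hFx _ hz2.2, hPd]
    unfold GLk
    have e1 : GA q W z = GA q W (z.1, z.2) := rfl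
    have e2 : GA q W z.swap = GA q W (z.2, z.1) := rfl
    have e3 : ct (z.2 - z.1) = -ct (z.1 - z.2) := by
      rw [← SEv_ct_neg]
      congr 1
      ring
    rw [e1, e2, ← s1, ← s2, e3]
    simp only [Prod.fst_swap, Prod.snd_swap]
    ring
  refine ⟨(k1.const_mul 4).congr hpt, ?_⟩
  rw [← integral_congr_ae hpt, integral_const_mul]
  have hL : Gq q W p = ∫ x in (0:ℝ)..(2 * π), (2 * (F x * HT (fun x => -W x) x) +
      P x * UU (fun x => -W x) x) := by
    have hsplit : ∫ x in Ioo (0:ℝ) (2 * π), (2 * (F x * HT (fun x => -W x) x) +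
      P x * UU (fun x => -W x) x) = ∫ x in Ioo (0:ℝ) p, (2 * (F x * HT (fun x => -W x) x) +
      P x * UU (fun x => -W x) x) := by
      refine setIntegral_eq_of_subset_of_forall_sdiff_eq_zero measurableSet_Ioo
        (Ioo_subset_Ioo_right h.l1.le) fun x hx => ?_
      have hxp : p ≤ x := by
        by_contra hcc
        push Not at hcc
        exact hx.2 ⟨hx.1.1, hcc⟩
      have hb : bR W x = 0 := max_eq_right (by linarith [h.pos x ⟨hxp, hx.1.2.le⟩])
      rw [hFx x hx.1, hPd]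
      show 2 * (bR W x * Pq q x * _) + bR W x * dPq q x * _ = 0
      rw [hb]
      ring
    rw [intervalIntegral.integral_of_le (by linarith : (0:ℝ) ≤ 2 * π), integral_Ioc_eq_integral_Ioo,
      hsplit]
    unfold Gq
    rw [intervalIntegral.integral_of_le h.l0.le, integral_Ioc_eq_integral_Ioo]
    refine setIntegral_congr_fun measurableSet_Ioo fun x hx => ?_
    have hx2 : x ∈ Ioo (0:ℝ) (2 * π) := ⟨hx.1, hx.2.trans h.l1⟩
    have hb : bR W x = -W x := max_eq_left (by linarith [h.neg x ⟨hx.1.le, hx.2.le⟩])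
    show W x * (2 * HT W x * Pq q x + UU W x * dPq q x) = 2 * (F x * HT (fun x => -W x) x) +
      P x * UU (fun x => -W x) x
    rw [hFx x hx2, hPd, Tr_HT_neg, Tr_UU_neg]
    show _ = 2 * (bR W x * Pq q x * -HT W x) + bR W x * dPq q x * -UU W x
    rw [hb]
    ring
  rw [hL, k2]
  field_simp
  ring

theorem bd_bR {W : ℝ → ℝ} {p : ℝ} (h : Van W p) : Bd (bR W) := by
  obtain ⟨K, hK⟩ := h.lip
  have hc : Continuous W := hK.continuous
  obtain ⟨δ, hδ, hv⟩ := h.van
  refine ⟨hc.neg.max continuous_const, fun x _ => le_max_right _ _, δ, hδ, fun x hx0 hx => ?_⟩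
  show max (-W x) 0 = 0
  rw [hv x (by rw [abs_of_nonneg hx0]; exact hx)]
  simp

theorem G_kernel' {W : ℝ → ℝ} {p q : ℝ} (h : Van W p) (hq : 0 ≤ q) :
    IntegrableOn (fun z : ℝ × ℝ => bR W z.1 * (2 * vq q z.1) * src q W (ct z.1) z.2) Sq1 ∧
    8 * π * Gq q W p = -form (hat q (bR W)) (hat q (bR W)) (kQ q)
      + (∫ z in Sq1, bR W z.1 * (2 * vq q z.1) * src q W (ct z.1) z.2)
      - (∫ x in (0:ℝ)..(2 * π), W x) * ∫ x in (0:ℝ)..π, bR W x * (2 * vq q x) * hh q (ct x) := by
  have hpi := Real.pi_pos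
  obtain ⟨i1, e1⟩ := G1_int (bd_bR h) hq
  have i2 := G2_int h hq
  obtain ⟨i3, e3⟩ := G3_int h hq
  obtain ⟨i0, e0⟩ := Gq_int h hq
  have swp : ∀ {g : ℝ × ℝ → ℝ}, IntegrableOn g Sq2 → IntegrableOn (fun z => g z.swap) Sq2 ∧
      ∫ z in Sq2, g z.swap = ∫ z in Sq2, g z := by
    intro g hg
    have h1 : Integrable g (volume.restrict Sq2) := hg
    rw [SD_Sq2] at h1
    constructor
    · show Integrable _ (volume.restrict Sq2)
      rw [SD_Sq2]
      exact h1.swap
    · rw [SD_Sq2]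
      exact integral_prod_swap g
  obtain ⟨i2s, e2s⟩ := swp i2
  obtain ⟨i3s, e3s⟩ := swp i3
  have hae : ∀ᵐ z : ℝ × ℝ ∂(volume.restrict Sq2), GA q W z + GA q W z.swap =
      -G1 q W z + (G2 q W z + G2 q W z.swap) + (G3 q W z + G3 q W z.swap) := by
    have h1 : ∀ᵐ z : ℝ × ℝ ∂(volume.restrict Sq2), z.1 ≠ z.2 := ae_restrict_of_ae NG_diag_ae
    have h2 : ∀ᵐ z : ℝ × ℝ ∂(volume.restrict Sq2), z ∈ Sq2 := ae_restrict_mem measSq2
    filter_upwards [h1, h2] with z hz1 hz2
    exact G_split hq W hz2 hz1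
  have hsum : 8 * π * Gq q W p = -(∫ z in Sq2, G1 q W z) + 2 * (∫ z in Sq2, G2 q W z) +
      2 * ∫ z in Sq2, G3 q W z := by
    rw [e0, integral_congr_ae hae]
    have j1 : Integrable (fun z => -G1 q W z) (volume.restrict Sq2) := i1.neg
    have j2 : Integrable (fun z => G2 q W z + G2 q W z.swap) (volume.restrict Sq2) := i2.add i2s
    have j3 : Integrable (fun z => G3 q W z + G3 q W z.swap) (volume.restrict Sq2) := i3.add i3s
    have j12 : Integrable (fun z => -G1 q W z + (G2 q W z + G2 q W z.swap))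
      (volume.restrict Sq2) := j1.add j2
    rw [integral_add j12 j3, integral_add j1 j2, integral_neg, integral_add i2 i2s,
      integral_add i3 i3s, e2s, e3s]
    ring
  obtain ⟨f1, f2⟩ := fold_snd i2 (fun z hz hz1 => by
    unfold G2
    have : vq q z.1 = 0 := max_eq_right (by linarith [ct_nonpos hz1 hz.1.2])
    rw [this]
    ring)
  have hfold : ∀ z ∈ Sq1, 2 * (G2 q W z + G2 q W (Rf z)) =
      bR W z.1 * (2 * vq q z.1) * src q W (ct z.1) z.2 := by
    intro z hz
    have hcz : 0 < ct z.2 := ct_pos hz.2.1 hz.2.2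
    unfold G2 src Rf
    simp only [Prod.map_fst, Prod.map_snd]
    rw [ct_refl, min_eq_left (by linarith : -ct z.2 ≤ q)]
    have hW : W (2 * π - z.2) = W (-z.2) := by
      have := h.per (-z.2)
      rw [← this]
      congr 1
      ring
    have hp := W_parts W (2 * π - z.2)
    rw [hW] at hp
    linear_combination (2 * bR W z.1 * vq q z.1 * gg q (ct z.1) (-ct z.2)) * (-hp)
  have hS1 : MeasurableSet Sq1 := measurableSet_Ioo.prod measurableSet_Ioo
  have hIfold : IntegrableOn (fun z => 2 * (G2 q W z + G2 q W (Rf z))) Sq1 := f1.const_mul 2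
  refine ⟨hIfold.congr_fun hfold hS1, ?_⟩
  rw [hsum, e1, f2, e3, ← setIntegral_congr_fun hS1 hfold, integral_const_mul]
  have e4 : ∫ x in (0:ℝ)..π, bR W x * (2 * vq q x) * hh q (ct x) =
      2 * ∫ x in (0:ℝ)..π, bR W x * vq q x * hh q (ct x) := by
    rw [← intervalIntegral.integral_const_mul]
    refine intervalIntegral.integral_congr fun x _ => ?_
    ring
  rw [e4]
  ring

end Pool.Agent.H45.DA
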