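import Pool.Agent.H51.DG.SD

/-!
# Class (A), static side: the general kernel lemma

For `W` Lipschitz and periodic, `F` Lipschitz, bounded and periodic, `P` measurable and bounded on `(0,2π)`:
`∫ (2 F HT W + P UU W) = 1/(2π) ∫∫ [(F(x)W(y) - F(y)W(x)) ct(x-y) + G(x,y) + G(y,x)]`,
`G(x,y) = P(x) W(y) (log sin((x-y)/2) - log sin(y/2))` (`kernel_gen`, extracted from `FF_kernel`).
`UU_at`: the value `UU W a` multiplied by `∫ P` in the same form.
-/

set_option autoImplicit false
open Real Set MeasureTheory Filter Topology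

namespace Pool.Agent.H45.DA
open Pool.Agent.H51.DG

/-- the logarithmic kernel term -/
noncomputable def GLk (W P : ℝ → ℝ) (z : ℝ × ℝ) : ℝ :=
  (P z.1 * W z.2) * (Real.log (Real.sin ((z.1 - z.2) / 2)) - Real.log (Real.sin (z.2 / 2)))

theorem measSq2 : MeasurableSet Sq2 := measurableSet_Ioo.prod measurableSet_Ioo

theorem GL_int {W P : ℝ → ℝ} {K B : ℝ} (hp : Function.Periodic W (2 * π)) (hK : Lip K W)
    (hPm : Measurable P) (hPb : ∀ x ∈ Ioo (0:ℝ) (2 * π), |P x| ≤ B) :
    IntegrableOn (GLk W P) Sq2 ∧ IntegrableOn (fun z : ℝ × ℝ => GLk W P z.swap) Sq2 ∧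
      ∫ z in Sq2, GLk W P z.swap = ∫ z in Sq2, GLk W P z := by
  have hWc : Continuous W := Lip.continuous hK
  obtain ⟨C, hC⟩ := (SD_BL_W hp ⟨K, hK⟩).bd
  have hC0 : 0 ≤ C := (abs_nonneg _).trans (hC 0)
  have hB0 : 0 ≤ B := (abs_nonneg _).trans (hPb π ⟨Real.pi_pos, by linarith [Real.pi_pos]⟩)
  have hG : IntegrableOn (GLk W P) Sq2 := by
    refine Integrable.bdd_mul (c := B * C) (SD_log_sq.sub SD_log_snd)
      (((hPm.comp measurable_fst).mul (hWc.measurable.comp measurable_snd)).aestronglyMeasurable)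
      ?_
    refine ae_restrict_of_forall_mem measSq2 fun z hz => ?_
    rw [Real.norm_eq_abs, abs_mul]
    exact mul_le_mul (hPb _ hz.1) (hC _) (abs_nonneg _) hB0
  refine ⟨hG, ?_, ?_⟩
  · have h1 : Integrable (GLk W P) (volume.restrict Sq2) := hG
    rw [SD_Sq2] at h1
    have h2 := h1.swap
    show Integrable _ (volume.restrict Sq2)
    rw [SD_Sq2]
    exact h2
  · rw [SD_Sq2]
    exact integral_prod_swap (GLk W P)

/-- the general kernel lemma -/
theorem kernel_gen {W F P : ℝ → ℝ} {K B : ℝ} (hp : Function.Periodic W (2 * π)) (hK : Lip K W)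
    (hF : SD_BL F) (hPm : Measurable P) (hPb : ∀ x ∈ Ioo (0:ℝ) (2 * π), |P x| ≤ B) :
    IntegrableOn (fun z : ℝ × ℝ => (F z.1 * W z.2 - F z.2 * W z.1) * ct (z.1 - z.2) +
      (GLk W P z + GLk W P z.swap)) Sq2 ∧
    ∫ x in (0:ℝ)..(2 * π), (2 * (F x * HT W x) + P x * UU W x) =
      1 / (2 * π) * ∫ z in Sq2, ((F z.1 * W z.2 - F z.2 * W z.1) * ct (z.1 - z.2) +
        (GLk W P z + GLk W P z.swap)) := by
  have hWc : Continuous W := Lip.continuous hK
  obtain ⟨hG, hGs, hGsw⟩ := GL_int hp hK hPm hPb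
  have hI2 : ∫ x in Ioo (0:ℝ) (2 * π), P x * UU W x = 1 / π * ∫ z in Sq2, GLk W P z := by
    have h1 : Integrable (GLk W P) (volume.restrict Sq2) := hG
    rw [SD_Sq2] at h1 ⊢
    rw [integral_prod _ h1, ← integral_const_mul]
    refine setIntegral_congr_fun measurableSet_Ioo fun x _ => ?_
    show P x * UU W x = 1 / π * ∫ y in Ioo (0:ℝ) (2 * π), GLk W P (x, y)
    rw [log_kernel hp hK x, intervalIntegral.integral_of_le Real.two_pi_pos.le,
      integral_Ioc_eq_integral_Ioo, mul_left_comm, ← integral_const_mul]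
    congr 1
    refine setIntegral_congr_fun measurableSet_Ioo fun y _ => ?_
    show P x * (W y * _) = (P x * W y) * _
    ring
  obtain ⟨K', hK'⟩ := hF.lip
  obtain ⟨B', hB'⟩ := hF.bd
  have hT : IntegrableOn (fun z : ℝ × ℝ => (F z.1 * W z.2 - F z.2 * W z.1) * ct (z.1 - z.2)) Sq2 :=
    HT_fubini_lip hK' hF.per hp hK
  have hI1 := HT_fubini (Lip.continuous hK').measurable hB' hF.per hp hK hT
  have hadd : IntegrableOn (fun z : ℝ × ℝ => GLk W P z + GLk W P z.swap) Sq2 := hG.add hGs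
  refine ⟨hT.add hadd, ?_⟩
  rw [integral_add hT hadd, integral_add hG hGs, hGsw]
  have hUc : Continuous (UU W) := continuous_iff_continuousAt.2 fun x =>
    (hasDerivAt_UU hK x).continuousAt
  have i1 : IntegrableOn (fun x => F x * HT W x) (Ioo (0:ℝ) (2 * π)) := by
    have hc : Continuous (fun x => F x * HT W x) := (Lip.continuous hK').mul (continuous_HT hK)
    exact (hc.integrableOn_Icc).mono_set Ioo_subset_Icc_self
  have i2 : IntegrableOn (fun x => P x * UU W x) (Ioo (0:ℝ) (2 * π)) := by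
    refine Integrable.bdd_mul (c := B)
      ((hUc.integrableOn_Icc).mono_set Ioo_subset_Icc_self) hPm.aestronglyMeasurable ?_
    exact ae_restrict_of_forall_mem measurableSet_Ioo fun x hx => hPb x hx
  have hFF : (∫ x in (0:ℝ)..(2 * π), (2 * (F x * HT W x) + P x * UU W x)) =
      2 * (∫ x in Ioo (0:ℝ) (2 * π), F x * HT W x) +
      ∫ x in Ioo (0:ℝ) (2 * π), P x * UU W x := by
    rw [intervalIntegral.integral_of_le Real.two_pi_pos.le, integral_Ioc_eq_integral_Ioo,
      ← integral_const_mul, ← integral_add (i1.const_mul 2) i2]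
  rw [intervalIntegral.integral_of_le Real.two_pi_pos.le, integral_Ioc_eq_integral_Ioo] at hI1
  rw [hFF, hI1, hI2]
  have : (π:ℝ) ≠ 0 := Real.pi_ne_zero
  field_simp
  ring

theorem log_int (a : ℝ) :
    IntegrableOn (fun y => Real.log (Real.sin ((a - y) / 2))) (Ioo (0:ℝ) (2 * π)) := by
  have h := log_sin_integrable a 0 (2 * π)
  rwa [intervalIntegrable_iff_integrableOn_Ioo_of_le Real.two_pi_pos.le] at h

theorem log_int0 : IntegrableOn (fun y => Real.log (Real.sin (y / 2))) (Ioo (0:ℝ) (2 * π)) := by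
  refine (log_int 0).congr_fun (fun y _ => ?_) measurableSet_Ioo
  show Real.log (Real.sin ((0 - y) / 2)) = Real.log (Real.sin (y / 2))
  rw [show (0 - y) / 2 = -(y / 2) by ring, Real.sin_neg, Real.log_neg_eq_log]

/-- the velocity at a point times the integral of a function -/
theorem UU_at {W R : ℝ → ℝ} {K B : ℝ} (hp : Function.Periodic W (2 * π)) (hK : Lip K W)
    (hRm : Measurable R) (hRb : ∀ x ∈ Ioo (0:ℝ) (2 * π), |R x| ≤ B) (a : ℝ) :
    IntegrableOn (fun z : ℝ × ℝ => (R z.1 * W z.2) *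
      (Real.log (Real.sin ((a - z.2) / 2)) - Real.log (Real.sin (z.2 / 2)))) Sq2 ∧
    UU W a * ∫ x in (0:ℝ)..(2 * π), R x = 1 / π * ∫ z in Sq2, (R z.1 * W z.2) *
      (Real.log (Real.sin ((a - z.2) / 2)) - Real.log (Real.sin (z.2 / 2))) := by
  have hWc : Continuous W := Lip.continuous hK
  obtain ⟨C, hC⟩ := (SD_BL_W hp ⟨K, hK⟩).bd
  have iWy : IntegrableOn (fun y => W y * (Real.log (Real.sin ((a - y) / 2)) -
      Real.log (Real.sin (y / 2)))) (Ioo (0:ℝ) (2 * π)) :=
    Integrable.bdd_mul (c := C) ((log_int a).sub log_int0) hWc.aestronglyMeasurable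
      (Filter.Eventually.of_forall fun y => hC y)
  have iR : IntegrableOn R (Ioo (0:ℝ) (2 * π)) := by
    refine Integrable.mono' (integrableOn_const (C := B) measure_Ioo_lt_top.ne)
      hRm.aestronglyMeasurable ?_
    exact ae_restrict_of_forall_mem measurableSet_Ioo fun x hx => hRb x hx
  have iP := Integrable.mul_prod iR iWy
  have e1 : (fun z : ℝ × ℝ => (R z.1 * W z.2) *
      (Real.log (Real.sin ((a - z.2) / 2)) - Real.log (Real.sin (z.2 / 2)))) =
      fun z : ℝ × ℝ => R z.1 * (W z.2 *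
      (Real.log (Real.sin ((a - z.2) / 2)) - Real.log (Real.sin (z.2 / 2)))) := by
    funext z
    ring
  rw [e1]
  constructor
  · show Integrable _ (volume.restrict Sq2)
    rw [SD_Sq2]
    exact iP
  · rw [SD_Sq2, integral_prod_mul R (fun y => W y *
      (Real.log (Real.sin ((a - y) / 2)) - Real.log (Real.sin (y / 2)))), log_kernel hp hK a,
      intervalIntegral.integral_of_le Real.two_pi_pos.le,
      intervalIntegral.integral_of_le Real.two_pi_pos.le, integral_Ioc_eq_integral_Ioo,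
      integral_Ioc_eq_integral_Ioo]
    ring

end Pool.Agent.H45.DA
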