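import Pool.Agent.H45.DA.QEq
import Pool.Agent.H45.DY.EEid
import Pool.Agent.H45.DY.MMid
import Pool.Agent.H45.DY.Mean

/-!
# Class (A), dynamics: the energy and the mass

`EA_eq`: `EA (Wb t) l` is the derivative of `EI c (e+2π) - EI e c + (MI e c + MI c (e+2π))/2`.
`BMA_eq`: `BMA (Wb t) l` is minus the derivative of `MI e c + MI c (e+2π)`.
`Ma_Wb`: the mass.
-/

set_option autoImplicit false
open Real Set MeasureTheory Filter Topology

namespace Pool.Agent.H45.DA
open Pool.Agent.H45.FL Pool.Agent.H51.DG Pool.Agent.H45.DY Pool.Agent.H90.DA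

variable {w u : ℝ × ℝ → ℝ} {X : ℝ → ℝ → ℝ} {e c T : ℝ}

theorem deriv_Wb (t x : ℝ) : deriv (Wb w X c t) x = px w (t, X t c + x) :=
  deriv_comp_const_add (f := fun y => w (t, y)) (X t c) x

theorem HT_deriv_Wb (h : Dyn w u X e c T) (t : ℝ) (ht : t ∈ Icc 0 T) (x : ℝ) :
    HT (deriv (Wb w X c t)) x = px (px u) (t, X t c + x) := by
  rw [pxx h t ht, ← HTd_shift (fun y => px w (t, y)) (X t c) x]
  have h1 : deriv (Wb w X c t) = fun y => px w (t, X t c + y) := funext fun y => deriv_Wb t y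
  rw [h1]

/-- change of variables, base `c`, arc P -/
theorem chP (h : Dyn w u X e c T) (t : ℝ) (ht : 0 ≤ t) (f : ℝ → ℝ) :
    ∫ x in (0:ℝ)..(2 * π - el X e c t), f x =
      ∫ α in Ioo c (e + 2 * π), f (X t α - X t c) * Real.exp (lam u X t α) := by
  have g := charc_gen h.cs h.fl t ht c (e + 2 * π) (-X t c) f
  have hl1 := h.el_lt t
  rw [intervalIntegral.integral_of_le (by linarith), integral_Ioc_eq_integral_Ioo]
  have e1 : X t c + -X t c = 0 := by ring
  have e2 : X t (e + 2 * π) + -X t c = 2 * π - el X e c t := by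
    rw [← sub_eq_add_neg]; exact el_P h t
  rw [e1, e2] at g
  rw [g]
  simp only [← sub_eq_add_neg]

/-- change of variables, base `c`, arc N -/
theorem chN (h : Dyn w u X e c T) (t : ℝ) (ht : 0 ≤ t) (f : ℝ → ℝ) :
    ∫ x in (-el X e c t)..(0:ℝ), f x =
      ∫ α in Ioo e c, f (X t α - X t c) * Real.exp (lam u X t α) := by
  have g := charc_gen h.cs h.fl t ht e c (-X t c) f
  have hl0 := h.el_pos t
  rw [intervalIntegral.integral_of_le (by linarith), integral_Ioc_eq_integral_Ioo]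
  have e1 : X t c + -X t c = 0 := by ring
  have e2 : X t e + -X t c = -el X e c t := by unfold el; ring
  rw [e1, e2] at g
  rw [g]
  simp only [← sub_eq_add_neg]

theorem eD (h : Dyn w u X e c T) (t : ℝ) (ht : t ∈ Icc 0 T) (p q : ℝ) :
    2 * ∫ α in Ioo p q, (fun x => deriv (Wb w X c t) x * HT (deriv (Wb w X c t)) x)
      (X t α - X t c) * Real.exp (lam u X t α) = ED w u X p q t := by
  rw [EEid_ED h t ht.1]
  congr 1
  refine setIntegral_congr_fun measurableSet_Ioo fun α _ => ?_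
  simp only
  rw [deriv_Wb, HT_deriv_Wb h t ht, add_sub_cancel]
  unfold EEidG
  ring

theorem mP (h : Dyn w u X e c T) (t : ℝ) (ht : t ∈ Icc 0 T) :
    ∫ α in Ioo c (e + 2 * π), (fun x => Wb w X c t x * HT (Wb w X c t) x)
      (X t α - X t c) * Real.exp (lam u X t α) = 1 / 2 * MD w u X c (e + 2 * π) t := by
  unfold MD
  rw [← integral_const_mul]
  refine setIntegral_congr_fun measurableSet_Ioo fun α hα => ?_
  have h1 : 0 ≤ w (0, α) := h.pos α ⟨hα.1.le, hα.2.le⟩
  simp only
  rw [HT_Wb h t ht, add_sub_cancel]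
  unfold Wb
  rw [add_sub_cancel, w_along h.cs h.fl, abs_of_nonneg h1, ← MMid_exp]
  ring

theorem mN (h : Dyn w u X e c T) (t : ℝ) (ht : t ∈ Icc 0 T) :
    ∫ α in Ioo e c, (fun x => Wb w X c t x * HT (Wb w X c t) x)
      (X t α - X t c) * Real.exp (lam u X t α) = -(1 / 2) * MD w u X e c t := by
  unfold MD
  rw [← integral_const_mul]
  refine setIntegral_congr_fun measurableSet_Ioo fun α hα => ?_
  have h1 : w (0, α) ≤ 0 := h.neg α ⟨hα.1.le, hα.2.le⟩
  simp only
  rw [HT_Wb h t ht, add_sub_cancel]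
  unfold Wb
  rw [add_sub_cancel, w_along h.cs h.fl, abs_of_nonpos h1, ← MMid_exp]
  ring

theorem EA_eq (h : Dyn w u X e c T) (t : ℝ) (ht : t ∈ Icc 0 T) :
    EA (Wb w X c t) (el X e c t) = ED w u X c (e + 2 * π) t - ED w u X e c t +
      1 / 2 * (MD w u X e c t + MD w u X c (e + 2 * π) t) := by
  unfold EA
  rw [chP h t ht.1, chP h t ht.1, chN h t ht.1, chN h t ht.1, eD h t ht, eD h t ht, mP h t ht,
    mN h t ht]
  ring

theorem BMA_eq (h : Dyn w u X e c T) (t : ℝ) (ht : t ∈ Icc 0 T) :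
    BMA (Wb w X c t) (el X e c t) = -(MD w u X e c t + MD w u X c (e + 2 * π) t) := by
  unfold BMA
  rw [chP h t ht.1, chN h t ht.1, mP h t ht, mN h t ht]
  ring

theorem Wb_per (h : Dyn w u X e c T) (t : ℝ) : Function.Periodic (Wb w X c t) (2 * π) := by
  intro x
  unfold Wb
  rw [← add_assoc, h.cs.per]

theorem Ma_Wb (h : Dyn w u X e c T) (t : ℝ) (ht : t ∈ Icc 0 T) :
    Ma (Wb w X c t) = MI w u X e c t + MI w u X c (e + 2 * π) t := by
  have hp := Wb_per h t
  have hc : Continuous (Wb w X c t) :=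
    h.cs.sm.continuous.comp (continuous_const.prodMk (continuous_const.add continuous_id))
  have h0 : Ma (Wb w X c t) = ∫ x in (-el X e c t)..(-el X e c t + 2 * π), |Wb w X c t x| := by
    unfold Ma
    have hp' : Function.Periodic (fun x => |Wb w X c t x|) (2 * π) := fun x => by
      simp only [hp x]
    have := hp'.intervalIntegral_add_eq 0 (-el X e c t)
    rw [zero_add] at this
    exact this
  rw [h0, ← intervalIntegral.integral_add_adjacent_intervals
    (hc.abs.intervalIntegrable _ 0) (hc.abs.intervalIntegrable 0 _)]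
  have e1 : -el X e c t + 2 * π = 2 * π - el X e c t := by ring
  rw [e1, chP h t ht.1, chN h t ht.1]
  unfold MI
  congr 1
  all_goals
    refine setIntegral_congr_fun measurableSet_Ioo fun α _ => ?_
    unfold Wb
    rw [add_sub_cancel, w_along h.cs h.fl, abs_mul, abs_of_pos (Real.exp_pos _), MMid_exp]

/-- the mean is conserved -/
theorem mean_Wb (h : Dyn w u X e c T) (t : ℝ) (ht : t ∈ Icc 0 T) :
    (∫ x in (0:ℝ)..(2 * π), Wb w X c t x) = ∫ x in (0:ℝ)..(2 * π), w (0, x) := by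
  have h0 := mean_const h t ht
  have hp : Function.Periodic (fun x => w (t, x)) (2 * π) := fun x => h.cs.per t x
  have h1 := hp.intervalIntegral_add_eq 0 (X t c)
  rw [zero_add] at h1
  rw [← h0, h1]
  unfold Wb
  rw [intervalIntegral.integral_comp_add_left (fun x => w (t, x)) (X t c), add_zero]

/-- the static sign structure along the flow -/
theorem twoA_Wb (h : Dyn w u X e c T) (hm : 0 ≤ ∫ x in (0:ℝ)..(2 * π), w (0, x)) (t : ℝ)
    (ht : t ∈ Icc 0 T) : TwoA (Wb w X c t) (el X e c t) :=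
  ⟨Wb_per h t, h.el_pos t, h.el_lt t, fun _ hx => sgnN h t hx, fun _ hx => sgnP h t hx,
    by rw [mean_Wb h t ht]; exact hm⟩

theorem cd_Wb (h : Dyn w u X e c T) (t : ℝ) : ContDiff ℝ 2 (Wb w X c t) := by
  have h1 : ContDiff ℝ ((⊤ : ℕ∞) : WithTop ℕ∞) (Wb w X c t) :=
    h.cs.sm.comp (contDiff_const.prodMk (contDiff_const.add contDiff_id))
  exact h1.of_le (WithTop.coe_le_coe.2 le_top)

end Pool.Agent.H45.DA
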