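import Pool.Agent.H45.DA.QWt

/-!
# Class (A), dynamics: the static functionals `TA`, `BNA`, `BPA` along the flow

`Wb w X c t x = w (t, X t c + x)`.
* `TA_eq`: `TA (q l) (dq l) (Wb t) l` is the derivative of the two parts of `T` (base `c`);
* `BNA_eq`, `BPA_eq`: minus the derivatives of the budgets at `e`.
-/

set_option autoImplicit false
open Real Set MeasureTheory Filter Topology

namespace Pool.Agent.H45.DA
open Pool.Agent.H45.FL Pool.Agent.H51.DG Pool.Agent.H45.DY Pool.Agent.H90.DA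

/-- the normalised function, base `c` -/
noncomputable def Wb (w : ℝ × ℝ → ℝ) (X : ℝ → ℝ → ℝ) (c t x : ℝ) : ℝ := w (t, X t c + x)

variable {w u : ℝ × ℝ → ℝ} {X : ℝ → ℝ → ℝ} {e c T : ℝ}

theorem HT_Wb (h : Dyn w u X e c T) (t : ℝ) (ht : t ∈ Icc 0 T) (x : ℝ) :
    HT (Wb w X c t) x = px u (t, X t c + x) := by
  rw [h.hu t ht]
  exact HTd_shift (fun y => w (t, y)) (X t c) x

theorem UU_Wb (h : Dyn w u X e c T) (t : ℝ) (ht : t ∈ Icc 0 T) (x : ℝ) :
    UU (Wb w X c t) x = u (t, X t c + x) - u (t, X t c) := by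
  unfold UU
  rw [intervalIntegral.integral_congr (fun y _ => HT_Wb h t ht y), HTd_ftc h]

theorem UU_Wb_e (h : Dyn w u X e c T) (t : ℝ) (ht : t ∈ Icc 0 T) :
    UU (Wb w X c t) (-el X e c t) = u (t, X t e) - u (t, X t c) := by
  rw [UU_Wb h t ht]
  have : X t c + -el X e c t = X t e := by unfold el; ring
  rw [this]

theorem el_P (h : Dyn w u X e c T) (t : ℝ) :
    X t (e + 2 * π) - X t c = 2 * π - el X e c t := by
  rw [Flow.per h.cs.vel h.fl t e]; unfold el; ring

theorem sgnP (h : Dyn w u X e c T) (t : ℝ) {x : ℝ} (hx : x ∈ Icc 0 (2 * π - el X e c t)) :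
    0 ≤ w (t, X t c + x) := by
  refine h.sgn_L t _ ⟨by linarith [hx.1], ?_⟩
  have := el_P h t
  have h2 : X t (e + 2 * π) = X t e + 2 * π := Flow.per h.cs.vel h.fl t e
  linarith [hx.2]

theorem sgnN (h : Dyn w u X e c T) (t : ℝ) {x : ℝ} (hx : x ∈ Icc (-el X e c t) 0) :
    w (t, X t c + x) ≤ 0 := by
  refine h.sgn_R t _ ⟨?_, by linarith [hx.2]⟩
  have : el X e c t = X t c - X t e := rfl
  linarith [hx.1]

/-- integrability of the Eulerian integrand, base zero at the left end -/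
theorem QD_left_int {Φ Φx Φq : ℝ → ℝ → ℝ} {q q1 : ℝ → ℝ} {p r : ℝ} (hΦ : WF Φ Φx Φq)
    (hq : ∀ t, HasDerivAt q (q1 t) t) (hq1 : Continuous q1) (h : CSol w u) (hX : Flow u X)
    (ha : Arc w p p r) (t : ℝ) (ht : 0 ≤ t) :
    IntervalIntegrable (fun x => |w (t, X t p + x)| *
      (2 * px u (t, X t p + x) * Φ (q t) x + (u (t, X t p + x) - u (t, X t p)) * Φx (q t) x +
        Φq (q t) x * q1 t)) volume 0 (X t r - X t p) := by
  have hm := Flow.mono h.vel hX t
  have h1 : X t p < X t r := hm ha.pq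
  have g := charc_gen_int h hX t ht p r (-X t p) (fun x => |w (t, X t p + x)| *
      (2 * px u (t, X t p + x) * Φ (q t) x + (u (t, X t p + x) - u (t, X t p)) * Φx (q t) x +
        Φq (q t) x * q1 t))
  have e1 : X t p + -X t p = 0 := by ring
  have e2 : X t r + -X t p = X t r - X t p := by ring
  rw [e1, e2] at g
  rw [intervalIntegrable_iff_integrableOn_Ioo_of_le (by linarith), g]
  refine (QD_integrable hΦ hq hq1 h hX ha t).congr_fun (fun α hα => ?_) measurableSet_Ioo
  have h2 : X t p < X t α := hm hα.1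
  have e3 : X t p + (X t α + -X t p) = X t α := by ring
  have e4 : X t α + -X t p = X t α - X t p := by ring
  show |w (0, α)| * qD Φ Φx Φq q q1 u X p t α = |w (t, X t p + (X t α + -X t p))| *
            (2 * px u (t, X t p + (X t α + -X t p)) * Φ (q t) (X t α + -X t p) +
                (u (t, X t p + (X t α + -X t p)) - u (t, X t p)) * Φx (q t) (X t α + -X t p) +
              Φq (q t) (X t α + -X t p) * q1 t) * Real.exp (lam u X t α)
  rw [e3, e4, qd_exp h hX]
  unfold qD
  rw [if_pos hα.1, abs_of_pos (sub_pos.2 h2)]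

theorem TA_eq {q dq : ℝ → ℝ} (h : Dyn w u X e c T) (t : ℝ) (ht : t ∈ Icc 0 T) :
    TA (q (el X e c t)) (dq (el X e c t)) (Wb w X c t) (el X e c t) =
      QD Pq dPq qPq (fun s => q (el X e c s))
        (fun s => dq (el X e c s) * (u (s, X s c) - u (s, X s e))) w u X c c (e + 2 * π) t +
      QD Pq dPq qPq (fun _ => 0) (fun _ => 0) w u X c e c t := by
  have hl0 := h.el_pos t
  have hl1 := h.el_lt t
  obtain ⟨l, hl⟩ : ∃ l, l = el X e c t := ⟨_, rfl⟩
  obtain ⟨q0, hq0⟩ : ∃ q0, q0 = q l := ⟨_, rfl⟩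
  rw [← hl] at hl0 hl1
  -- the P arc
  have hP := QD_left (Φ := Pq) (Φx := dPq) (Φq := qPq) (q := fun s => q (el X e c s))
    (q1 := fun s => dq (el X e c s) * (u (s, X s c) - u (s, X s e))) h.cs h.fl h.hce t ht.1
  have iA := QD_left_int (q := fun _ => q0) (q1 := fun _ => 0) wf_Pq
    (fun s => hasDerivAt_const s q0) continuous_const h.cs h.fl h.arc_c_L t ht.1
  have iB := QD_left_int (q := fun s => q0 + (s - t)) (q1 := fun _ => 1) wf_Pq
    (fun s => by simpa using ((hasDerivAt_id s).sub_const t).const_add q0) continuous_const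
    h.cs h.fl h.arc_c_L t ht.1
  rw [el_P h t, ← hl] at hP iA iB
  simp only [sub_self, add_zero] at iB
  simp only [mul_zero, add_zero] at iA
  have iC := (iB.sub iA)
  have eC : ∀ x, |w (t, X t c + x)| * (2 * px u (t, X t c + x) * Pq q0 x +
      (u (t, X t c + x) - u (t, X t c)) * dPq q0 x + qPq q0 x * 1) -
      |w (t, X t c + x)| * (2 * px u (t, X t c + x) * Pq q0 x +
      (u (t, X t c + x) - u (t, X t c)) * dPq q0 x) = |w (t, X t c + x)| * qPq q0 x := by
    intro x; ring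
  have iC' : IntervalIntegrable (fun x => |w (t, X t c + x)| * qPq q0 x) volume 0
      (2 * π - l) := by
    exact iC.congr fun x _ => eC x
  have hP2 : QD Pq dPq qPq (fun s => q (el X e c s))
        (fun s => dq (el X e c s) * (u (s, X s c) - u (s, X s e))) w u X c c (e + 2 * π) t =
      (∫ x in (0:ℝ)..(2 * π - l), |w (t, X t c + x)| * (2 * px u (t, X t c + x) * Pq q0 x +
        (u (t, X t c + x) - u (t, X t c)) * dPq q0 x)) +
      (dq l * (u (t, X t c) - u (t, X t e))) *
        ∫ x in (0:ℝ)..(2 * π - l), |w (t, X t c + x)| * qPq q0 x := by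
    rw [hP, ← intervalIntegral.integral_const_mul, ← intervalIntegral.integral_add iA
      (iC'.const_mul _)]
    refine intervalIntegral.integral_congr fun x _ => ?_
    simp only [← hl, ← hq0]
    ring
  -- the N arc
  have hN := QD_right (Φ := Pq) (Φx := dPq) (Φq := qPq) (q := fun _ => 0)
    (q1 := fun _ => 0) h.cs h.fl h.hec t ht.1
  have e1 : X t e - X t c = -l := by rw [hl]; unfold el; ring
  rw [e1] at hN
  rw [hP2, hN]
  unfold TA
  rw [← hl, ← hq0]
  have hUe : UU (Wb w X c t) (-l) = u (t, X t e) - u (t, X t c) := by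
    rw [hl]; exact UU_Wb_e h t ht
  have r1 : (∫ x in (0:ℝ)..(2 * π - l), Wb w X c t x * (2 * HT (Wb w X c t) x * Pq q0 x +
      UU (Wb w X c t) x * dPq q0 x)) = ∫ x in (0:ℝ)..(2 * π - l), |w (t, X t c + x)| *
        (2 * px u (t, X t c + x) * Pq q0 x + (u (t, X t c + x) - u (t, X t c)) * dPq q0 x) := by
    refine intervalIntegral.integral_congr fun x hx => ?_
    rw [uIcc_of_le (by linarith)] at hx
    rw [HT_Wb h t ht, UU_Wb h t ht, abs_of_nonneg (sgnP h t (by rw [← hl]; exact hx))]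
    rfl
  have r2 : (∫ x in (0:ℝ)..(2 * π - l), Wb w X c t x * max (ct x - q0) 0) =
      -2 * ∫ x in (0:ℝ)..(2 * π - l), |w (t, X t c + x)| * qPq q0 x := by
    rw [← intervalIntegral.integral_const_mul]
    refine intervalIntegral.integral_congr fun x hx => ?_
    rw [uIcc_of_le (by linarith)] at hx
    rw [abs_of_nonneg (sgnP h t (by rw [← hl]; exact hx))]
    unfold qPq Wb
    ring
  have r3 : (∫ x in (-l)..0, -Wb w X c t x * (2 * HT (Wb w X c t) x * Pq 0 (-x) -
      UU (Wb w X c t) x * dPq 0 (-x))) = ∫ x in (-l)..0, |w (t, X t c + x)| *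
        (2 * px u (t, X t c + x) * Pq 0 (-x) - (u (t, X t c + x) - u (t, X t c)) * dPq 0 (-x) +
          qPq 0 (-x) * 0) := by
    refine intervalIntegral.integral_congr fun x hx => ?_
    rw [uIcc_of_le (by linarith)] at hx
    rw [HT_Wb h t ht, UU_Wb h t ht, abs_of_nonpos (sgnN h t (by rw [← hl]; exact hx)), mul_zero,
      add_zero]
    rfl
  rw [r1, r2, r3, hUe]
  ring

theorem BNA_eq (h : Dyn w u X e c T) (t : ℝ) (ht : t ∈ Icc 0 T) :
    BNA (Wb w X c t) (el X e c t) =
      -QD Pq dPq qPq (fun _ => 0) (fun _ => 0) w u X e e c t := by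
  have hl0 := h.el_pos t
  obtain ⟨l, hl⟩ : ∃ l, l = el X e c t := ⟨_, rfl⟩
  have hN := QD_left (Φ := Pq) (Φx := dPq) (Φq := qPq) (q := fun _ => 0)
    (q1 := fun _ => 0) h.cs h.fl h.hec t ht.1
  have e1 : X t c - X t e = l := hl.symm
  rw [e1] at hN
  rw [hN, ← hl]
  have hUe : UU (Wb w X c t) (-l) = u (t, X t e) - u (t, X t c) := by
    rw [hl]; exact UU_Wb_e h t ht
  have e2 := intervalIntegral.integral_comp_add_right (a := -l) (b := 0)
    (fun x => |w (t, X t e + x)| * (2 * px u (t, X t e + x) * Pq 0 x +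
      (u (t, X t e + x) - u (t, X t e)) * dPq 0 x + qPq 0 x * 0)) l
  rw [neg_add_cancel, zero_add] at e2
  rw [← e2, ← intervalIntegral.integral_neg]
  unfold BNA
  rw [← hl] at hl0
  refine intervalIntegral.integral_congr fun x hx => ?_
  rw [uIcc_of_le (by linarith)] at hx
  have e3 : X t e + (x + l) = X t c + x := by rw [← e1]; ring
  rw [HT_Wb h t ht, UU_Wb h t ht, hUe, e3,
    abs_of_nonpos (sgnN h t (by rw [← hl]; exact hx))]
  unfold Wb
  ring

theorem BPA_eq (h : Dyn w u X e c T) (t : ℝ) (ht : t ∈ Icc 0 T) :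
    BPA (Wb w X c t) (el X e c t) =
      -QD Pq dPq qPq (fun _ => 0) (fun _ => 0) w u X (e + 2 * π) c (e + 2 * π) t := by
  have hl1 := h.el_lt t
  obtain ⟨l, hl⟩ : ∃ l, l = el X e c t := ⟨_, rfl⟩
  have hN := QD_right (Φ := Pq) (Φx := dPq) (Φq := qPq) (q := fun _ => 0)
    (q1 := fun _ => 0) h.cs h.fl h.hce t ht.1
  have e1 : X t c - X t (e + 2 * π) = -(2 * π - l) := by
    rw [← neg_sub (X t (e + 2 * π)), el_P h t, hl]
  rw [e1] at hN
  rw [hN, ← hl]
  have hUe : UU (Wb w X c t) (-l) = u (t, X t e) - u (t, X t c) := by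
    rw [hl]; exact UU_Wb_e h t ht
  have e2 := intervalIntegral.integral_comp_sub_right (a := 0) (b := 2 * π - l)
    (fun x => |w (t, X t (e + 2 * π) + x)| * (2 * px u (t, X t (e + 2 * π) + x) * Pq 0 (-x) -
      (u (t, X t (e + 2 * π) + x) - u (t, X t (e + 2 * π))) * dPq 0 (-x) + qPq 0 (-x) * 0))
    (2 * π - l)
  rw [zero_sub, sub_self] at e2
  rw [← e2, ← intervalIntegral.integral_neg]
  unfold BPA
  rw [← hl] at hl1
  refine intervalIntegral.integral_congr fun x hx => ?_
  rw [uIcc_of_le (by linarith)] at hx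
  have e3 : X t (e + 2 * π) + (x - (2 * π - l)) = X t c + x := by
    have := el_P h t
    rw [← hl] at this
    rw [← this]
    ring
  have e4 : u (t, X t (e + 2 * π)) = u (t, X t e) := by
    rw [Flow.per h.cs.vel h.fl, h.cs.vel.per]
  have e5 : -(x - (2 * π - l)) = 2 * π - l - x := by ring
  rw [HT_Wb h t ht, UU_Wb h t ht, hUe, e3, e4, e5,
    abs_of_nonneg (sgnP h t (by rw [← hl]; exact hx))]
  unfold Wb
  ring

end Pool.Agent.H45.DA
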