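import Pool.Agent.H45.DY.FFid
import Pool.Agent.H51.DG.SG

/-!
# Class (A), dynamics: weights `Φ(q(t), ξ)` depending on time

`WF Φ Φx Φq`: a family of weights on `0 < ξ < 2π` with the singularity of `1/ξ²`.  For a `C¹` function `q` of time
(`q1` its derivative) and a base zero `z` (an end point of the label interval `(p,r)`),
`qI z t α = X_α² Φ(q t, |X t α - X t z|)`, `qD` its time derivative,
`QI = ∫ |w0| (qI t - qI 0)`, `QD = ∫ |w0| qD`: `QI` is differentiable with the continuous derivative `QD`.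
`QD_L`, `QD_R`: `QD` in Eulerian form, base zero on the left or on the right.
-/

set_option autoImplicit false
open Real Set MeasureTheory

namespace Pool.Agent.H45.DA
open Pool.Agent.H45.FL Pool.Agent.H51.DG Pool.Agent.H45.DY

/-- a family of weights with the singularity of `1/ξ²` at `ξ = 0` -/
structure WF (Φ Φx Φq : ℝ → ℝ → ℝ) : Prop where
  der : ∀ (q x : ℝ → ℝ) (q1 x1 t : ℝ), 0 < x t → x t < 2 * π → HasDerivAt q q1 t →
    HasDerivAt x x1 t →
    HasDerivAt (fun s => Φ (q s) (x s)) (Φx (q t) (x t) * x1 + Φq (q t) (x t) * q1) t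
  cont : ContinuousOn (fun z : ℝ × ℝ => Φ z.1 z.2) (univ ×ˢ Ioo 0 (2 * π))
  contx : ContinuousOn (fun z : ℝ × ℝ => Φx z.1 z.2) (univ ×ˢ Ioo 0 (2 * π))
  contq : ContinuousOn (fun z : ℝ × ℝ => Φq z.1 z.2) (univ ×ˢ Ioo 0 (2 * π))
  bd : ∀ Q m : ℝ, m < 2 * π → ∃ C : ℝ, 0 ≤ C ∧ ∀ q ξ : ℝ, |q| ≤ Q → 0 < ξ → ξ ≤ m →
    |2 * Φ q ξ + ξ * Φx q ξ| ≤ C / ξ ∧ |Φx q ξ| ≤ C / ξ ^ 3 ∧ |Φq q ξ| ≤ C / ξ

/-- `X_α² Φ(q, ξ)` -/
noncomputable def qI (Φ : ℝ → ℝ → ℝ) (q : ℝ → ℝ) (u : ℝ × ℝ → ℝ) (X : ℝ → ℝ → ℝ) (z t α : ℝ) : ℝ :=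
  Real.exp (2 * lam u X t α) * Φ (q t) |X t α - X t z|

/-- time derivative of `qI` -/
noncomputable def qD (Φ Φx Φq : ℝ → ℝ → ℝ) (q q1 : ℝ → ℝ) (u : ℝ × ℝ → ℝ) (X : ℝ → ℝ → ℝ)
    (z t α : ℝ) : ℝ :=
  Real.exp (2 * lam u X t α) * (2 * px u (t, X t α) * Φ (q t) |X t α - X t z| +
    (u (t, X t α) - u (t, X t z)) *
      (if z < α then Φx (q t) |X t α - X t z| else -Φx (q t) |X t α - X t z|) +
    Φq (q t) |X t α - X t z| * q1 t)

noncomputable def QI (Φ : ℝ → ℝ → ℝ) (q : ℝ → ℝ) (w u : ℝ × ℝ → ℝ) (X : ℝ → ℝ → ℝ)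
    (z p r t : ℝ) : ℝ :=
  ∫ α in Ioo p r, |w (0, α)| * (qI Φ q u X z t α - qI Φ q u X z 0 α)

noncomputable def QD (Φ Φx Φq : ℝ → ℝ → ℝ) (q q1 : ℝ → ℝ) (w u : ℝ × ℝ → ℝ) (X : ℝ → ℝ → ℝ)
    (z p r t : ℝ) : ℝ :=
  ∫ α in Ioo p r, |w (0, α)| * qD Φ Φx Φq q q1 u X z t α

variable {w u : ℝ × ℝ → ℝ} {X : ℝ → ℝ → ℝ} {Φ Φx Φq : ℝ → ℝ → ℝ} {q q1 : ℝ → ℝ} {z p r : ℝ}

theorem qI_hasDerivAt (hΦ : WF Φ Φx Φq) (hq : ∀ t, HasDerivAt q (q1 t) t) (h : CSol w u)
    (hX : Flow u X) (ha : Arc w z p r) (t α : ℝ) (hα : α ∈ Ioo p r) :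
    HasDerivAt (fun s => qI Φ q u X z s α) (qD Φ Φx Φq q q1 u X z t α) t := by
  have hξ0 := xi_pos h hX ha t α hα
  have hξ1 := xi_lt h hX ha t α hα
  have hlam : HasDerivAt (fun s => Real.exp (2 * lam u X s α))
      (Real.exp (2 * lam u X t α) * (2 * px u (t, X t α))) t :=
    ((lam_hasDerivAt_t h.vel hX t α).const_mul 2).exp
  rcases Gd_side ha with hs | hs
  · have hz := hs α hα
    have e1 : (fun s => qI Φ q u X z s α) =
        fun s => Real.exp (2 * lam u X s α) * Φ (q s) (X s α - X s z) := by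
      funext s
      unfold qI
      rw [Gd_absL h hX hz s]
    have e2 := Gd_absL h hX hz t
    rw [e2] at hξ0 hξ1
    have h0 : HasDerivAt (fun s => X s α - X s z) (u (t, X t α) - u (t, X t z)) t :=
      (hX.ode t α).sub (hX.ode t z)
    have h1 := hΦ.der q (fun s => X s α - X s z) (q1 t) _ t hξ0 hξ1 (hq t) h0
    rw [e1]
    refine (hlam.mul h1).congr_deriv ?_
    unfold qD
    rw [if_pos hz, e2]
    ring
  · have hz := hs α hα
    have e1 : (fun s => qI Φ q u X z s α) =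
        fun s => Real.exp (2 * lam u X s α) * Φ (q s) (X s z - X s α) := by
      funext s
      unfold qI
      rw [Gd_absR h hX hz s]
    have e2 := Gd_absR h hX hz t
    rw [e2] at hξ0 hξ1
    have h0 : HasDerivAt (fun s => X s z - X s α) (u (t, X t z) - u (t, X t α)) t :=
      (hX.ode t z).sub (hX.ode t α)
    have h1 := hΦ.der q (fun s => X s z - X s α) (q1 t) _ t hξ0 hξ1 (hq t) h0
    rw [e1]
    refine (hlam.mul h1).congr_deriv ?_
    unfold qD
    rw [if_neg (not_lt.2 hz.le), e2]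
    ring

/-- joint continuity of `qI` and `qD` on `time × label interval` -/
theorem q_joint (hΦ : WF Φ Φx Φq) (hq : Continuous q) (hq1 : Continuous q1) (h : CSol w u)
    (hX : Flow u X) (ha : Arc w z p r) :
    ContinuousOn (fun s : ℝ × ℝ => qI Φ q u X z s.1 s.2) (univ ×ˢ Ioo p r) ∧
      ContinuousOn (fun s : ℝ × ℝ => qD Φ Φx Φq q q1 u X z s.1 s.2) (univ ×ˢ Ioo p r) := by
  have hXc : Continuous fun s : ℝ × ℝ => X s.1 s.2 := Flow.cont h.vel hX
  have hXz : Continuous fun s : ℝ × ℝ => X s.1 z :=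
    hXc.comp (continuous_fst.prodMk continuous_const)
  have hξc : Continuous fun s : ℝ × ℝ => ((q s.1, |X s.1 s.2 - X s.1 z|) : ℝ × ℝ) :=
    (hq.comp continuous_fst).prodMk (hXc.sub hXz).abs
  have hmaps : MapsTo (fun s : ℝ × ℝ => ((q s.1, |X s.1 s.2 - X s.1 z|) : ℝ × ℝ))
      (univ ×ˢ Ioo p r) (univ ×ˢ Ioo 0 (2 * π)) := fun s hs =>
    ⟨mem_univ _, xi_pos h hX ha s.1 s.2 hs.2, xi_lt h hX ha s.1 s.2 hs.2⟩
  have hph : ContinuousOn (fun s : ℝ × ℝ => Φ (q s.1) |X s.1 s.2 - X s.1 z|) (univ ×ˢ Ioo p r) :=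
    hΦ.cont.comp hξc.continuousOn hmaps
  have hdph : ContinuousOn (fun s : ℝ × ℝ => Φx (q s.1) |X s.1 s.2 - X s.1 z|)
      (univ ×ˢ Ioo p r) := hΦ.contx.comp hξc.continuousOn hmaps
  have hqph : ContinuousOn (fun s : ℝ × ℝ => Φq (q s.1) |X s.1 s.2 - X s.1 z|)
      (univ ×ˢ Ioo p r) := hΦ.contq.comp hξc.continuousOn hmaps
  have hE : Continuous fun s : ℝ × ℝ => Real.exp (2 * lam u X s.1 s.2) :=
    Real.continuous_exp.comp (continuous_const.mul (lam_cont h.vel hX))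
  have hpx : Continuous fun s : ℝ × ℝ => px u (s.1, X s.1 s.2) :=
    (smooth_px u h.vel.sm).continuous.comp (continuous_fst.prodMk hXc)
  have hu1 : Continuous fun s : ℝ × ℝ => u (s.1, X s.1 s.2) :=
    h.vel.sm.continuous.comp (continuous_fst.prodMk hXc)
  have hu2 : Continuous fun s : ℝ × ℝ => u (s.1, X s.1 z) :=
    h.vel.sm.continuous.comp (continuous_fst.prodMk hXz)
  refine ⟨hE.continuousOn.mul hph, ?_⟩
  have hif : ContinuousOn (fun s : ℝ × ℝ =>
      if z < s.2 then Φx (q s.1) |X s.1 s.2 - X s.1 z| else -Φx (q s.1) |X s.1 s.2 - X s.1 z|)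
      (univ ×ˢ Ioo p r) := by
    rcases Gd_side ha with hs | hs
    · refine hdph.congr fun s hr => ?_
      show (if z < s.2 then Φx (q s.1) |X s.1 s.2 - X s.1 z| else
        -Φx (q s.1) |X s.1 s.2 - X s.1 z|) = _
      rw [if_pos (hs s.2 hr.2)]
    · refine hdph.neg.congr fun s hr => ?_
      show (if z < s.2 then Φx (q s.1) |X s.1 s.2 - X s.1 z| else
        -Φx (q s.1) |X s.1 s.2 - X s.1 z|) = _
      rw [if_neg (not_lt.2 (hs s.2 hr.2).le)]
      rfl
  exact hE.continuousOn.mul (((((continuous_const.mul hpx).continuousOn).mul hph).add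
    ((hu1.sub hu2).continuousOn.mul hif)).add
      (hqph.mul (hq1.comp continuous_fst).continuousOn))

theorem qD_cont_t (hΦ : WF Φ Φx Φq) (hq : Continuous q) (hq1 : Continuous q1) (h : CSol w u)
    (hX : Flow u X) (ha : Arc w z p r) (α : ℝ) (hα : α ∈ Ioo p r) :
    Continuous fun t => qD Φ Φx Φq q q1 u X z t α := by
  have h1 := (q_joint hΦ hq hq1 h hX ha).2
  have h2 : Continuous fun t : ℝ => ((t, α) : ℝ × ℝ) := continuous_id.prodMk continuous_const
  exact h1.comp_continuous h2 fun t => ⟨mem_univ _, hα⟩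

theorem qD_meas (hΦ : WF Φ Φx Φq) (hq : Continuous q) (hq1 : Continuous q1) (h : CSol w u)
    (hX : Flow u X) (ha : Arc w z p r) (t : ℝ) :
    AEStronglyMeasurable (fun α => |w (0, α)| * qD Φ Φx Φq q q1 u X z t α)
      (volume.restrict (Ioo p r)) := by
  have h1 : ContinuousOn (fun α => |w (0, α)| * qD Φ Φx Φq q q1 u X z t α) (Ioo p r) :=
    (Gd_w0 h).continuousOn.mul (Gd_label (q_joint hΦ hq hq1 h hX ha).2 t)
  exact h1.aestronglyMeasurable measurableSet_Ioo

theorem qI_meas (hΦ : WF Φ Φx Φq) (hq : Continuous q) (hq1 : Continuous q1) (h : CSol w u)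
    (hX : Flow u X) (ha : Arc w z p r) (t : ℝ) :
    AEStronglyMeasurable (fun α => |w (0, α)| * (qI Φ q u X z t α - qI Φ q u X z 0 α))
      (volume.restrict (Ioo p r)) := by
  have h1 : ContinuousOn (fun α => |w (0, α)| * (qI Φ q u X z t α - qI Φ q u X z 0 α))
      (Ioo p r) :=
    (Gd_w0 h).continuousOn.mul
      ((Gd_label (q_joint hΦ hq hq1 h hX ha).1 t).sub (Gd_label (q_joint hΦ hq hq1 h hX ha).1 0))
  exact h1.aestronglyMeasurable measurableSet_Ioo

/-- the algebraic core of the bound -/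
theorem q_core {ux uX uZ x y σ ξ P D G g C K K2 K3 : ℝ} (hσ : σ * σ = 1) (hx : x - y = σ * ξ)
    (hξ : 0 < ξ) (hux : |ux| ≤ K) (hr : |uZ - uX - ux * (y - x)| ≤ K2 * (y - x) ^ 2)
    (hK2 : 0 ≤ K2) (hc : |2 * P + ξ * D| ≤ C / ξ) (hD : |D| ≤ C / ξ ^ 3) (hG : |G| ≤ C / ξ)
    (hg : |g| ≤ K3) (hC : 0 ≤ C) :
    |2 * ux * P + (uX - uZ) * (σ * D) + G * g| ≤ (K * C + K2 * C + C * K3) / ξ := by
  have hK : 0 ≤ K := (abs_nonneg _).trans hux
  have hσ1 : |σ| = 1 := by
    have h1 : |σ| * |σ| = 1 := by rw [← abs_mul, hσ, abs_one]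
    nlinarith [abs_nonneg σ]
  have e1 : 2 * ux * P + (uX - uZ) * (σ * D) + G * g =
      ux * (2 * P + ξ * D) + -((uZ - uX - ux * (y - x)) * (σ * D)) + G * g := by
    have e2 : uX - uZ = ux * (σ * ξ) - (uZ - uX - ux * (y - x)) := by
      rw [← hx]; ring
    rw [e2]
    linear_combination (ux * ξ * D) * hσ
  have e3 : (y - x) ^ 2 = ξ ^ 2 := by
    have e4 : y - x = -(σ * ξ) := by rw [← hx]; ring
    rw [e4]
    linear_combination (ξ ^ 2) * hσ
  rw [e3] at hr
  have h2 : |ux * (2 * P + ξ * D)| ≤ K * (C / ξ) := by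
    rw [abs_mul]
    exact mul_le_mul hux hc (abs_nonneg _) hK
  have h3 : |-((uZ - uX - ux * (y - x)) * (σ * D))| ≤ K2 * C / ξ := by
    rw [abs_neg, abs_mul, abs_mul, hσ1, one_mul]
    calc |uZ - uX - ux * (y - x)| * |D| ≤ K2 * ξ ^ 2 * (C / ξ ^ 3) :=
          mul_le_mul hr hD (abs_nonneg _) (by positivity)
      _ = K2 * C / ξ := by field_simp
  have h4 : |G * g| ≤ C / ξ * K3 := by
    rw [abs_mul]
    exact mul_le_mul hG hg (abs_nonneg _) (by positivity)
  rw [e1]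
  have h5 := (abs_add_le (ux * (2 * P + ξ * D) + -((uZ - uX - ux * (y - x)) * (σ * D)))
    (G * g)).trans (add_le_add ((abs_add_le _ _).trans (add_le_add h2 h3)) h4)
  refine h5.trans (le_of_eq ?_)
  ring

/-- the length of the arc stays away from `2π` on bounded time intervals -/
theorem arc_len (h : CSol w u) (hX : Flow u X) (ha : Arc w z p r) (N : ℝ) :
    ∃ m : ℝ, m < 2 * π ∧ ∀ t α : ℝ, |t| ≤ N → α ∈ Ioo p r → |X t α - X t z| ≤ m := by
  have hXc : Continuous fun s : ℝ × ℝ => X s.1 s.2 := Flow.cont h.vel hX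
  have hc : Continuous fun t : ℝ => X t r - X t p :=
    (hXc.comp (continuous_id.prodMk continuous_const)).sub
      (hXc.comp (continuous_id.prodMk continuous_const))
  have hlt : ∀ t, X t r - X t p < 2 * π := by
    intro t
    have h1 := Flow.mono h.vel hX t ha.qp
    have h2 : X t (p + 2 * π) = X t p + 2 * π := Flow.per h.vel hX t p
    linarith
  have hm : ∀ t α : ℝ, α ∈ Ioo p r → |X t α - X t z| ≤ X t r - X t p := by
    intro t α hα
    have hmo := Flow.mono h.vel hX t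
    have h1 : X t p < X t α := hmo hα.1
    have h2 : X t α < X t r := hmo hα.2
    rcases ha.z1 with hz | hz
    · rw [hz, abs_of_pos (sub_pos.2 h1)]
      linarith
    · rw [hz, abs_of_neg (sub_neg.2 h2)]
      linarith
  by_cases hN : 0 ≤ N
  · obtain ⟨s, hs, hmax⟩ := (isCompact_Icc (a := -N) (b := N)).exists_isMaxOn
      ⟨0, by constructor <;> linarith⟩ hc.continuousOn
    refine ⟨X s r - X s p, hlt s, fun t α ht hα => (hm t α hα).trans ?_⟩
    exact hmax (abs_le.1 ht)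
  · refine ⟨0, by positivity, fun t α ht hα => ?_⟩
    exact absurd ((abs_nonneg t).trans ht) hN

theorem qD_bound (hΦ : WF Φ Φx Φq) (hq : Continuous q) (hq1 : Continuous q1) (h : CSol w u)
    (hX : Flow u X) (ha : Arc w z p r) (N : ℝ) :
    ∃ K : ℝ, 0 ≤ K ∧ ∀ t α : ℝ, |t| ≤ N → α ∈ Ioo p r →
      ‖|w (0, α)| * qD Φ Φx Φq q q1 u X z t α‖ ≤ K := by
  obtain ⟨K, hK, hb⟩ := ubd h hX N
  obtain ⟨K1, hK1, hw⟩ := w_near h hX N
  obtain ⟨K2, hK2, ht2⟩ := h.vel.taylor
  obtain ⟨Q, hQ⟩ := (isCompact_Icc (a := -N) (b := N)).exists_bound_of_continuousOn hq.continuousOn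
  obtain ⟨K3, hK3⟩ :=
    (isCompact_Icc (a := -N) (b := N)).exists_bound_of_continuousOn hq1.continuousOn
  obtain ⟨m, hm, hml⟩ := arc_len h hX ha N
  obtain ⟨C, hC, hCb⟩ := hΦ.bd Q m hm
  obtain ⟨K4, hK4⟩ : ∃ K4, K4 = max K3 0 := ⟨_, rfl⟩
  have hK40 : 0 ≤ K4 := hK4 ▸ le_max_right _ _
  refine ⟨K1 * Real.exp K * (K * C + K2 * C + C * K4), by positivity, fun t α ht hα => ?_⟩
  have hξ0 := xi_pos h hX ha t α hα
  have hqt : |q t| ≤ Q := by
    have := hQ t (abs_le.1 ht)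
    rwa [Real.norm_eq_abs] at this
  have hq1t : |q1 t| ≤ K4 := by
    have := hK3 t (abs_le.1 ht)
    rw [Real.norm_eq_abs] at this
    exact this.trans (hK4 ▸ le_max_left _ _)
  obtain ⟨hc, hD, hG⟩ := hCb (q t) _ hqt hξ0 (hml t α ht hα)
  have hcore : |2 * px u (t, X t α) * Φ (q t) |X t α - X t z| +
      (u (t, X t α) - u (t, X t z)) *
        (if z < α then Φx (q t) |X t α - X t z| else -Φx (q t) |X t α - X t z|) +
      Φq (q t) |X t α - X t z| * q1 t| ≤
      (K * C + K2 * C + C * K4) / |X t α - X t z| := by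
    have hux := (hb t (X t α) ht).2.2.2.1
    have hr := ht2 t (X t α) (X t z)
    rcases Gd_side ha with hs | hs
    · have hz := hs α hα
      rw [if_pos hz]
      have h1 := q_core (σ := 1) (ux := px u (t, X t α)) (uX := u (t, X t α))
        (uZ := u (t, X t z)) (x := X t α) (y := X t z) (ξ := |X t α - X t z|)
        (P := Φ (q t) |X t α - X t z|) (D := Φx (q t) |X t α - X t z|) (K := K) (K2 := K2)
        (by norm_num) (by rw [one_mul, Gd_absL h hX hz t]) hξ0 hux hr hK2 hc hD hG hq1t hC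
      rw [one_mul] at h1
      exact h1
    · have hz := hs α hα
      rw [if_neg (not_lt.2 hz.le)]
      have h1 := q_core (σ := -1) (ux := px u (t, X t α)) (uX := u (t, X t α))
        (uZ := u (t, X t z)) (x := X t α) (y := X t z) (ξ := |X t α - X t z|)
        (P := Φ (q t) |X t α - X t z|) (D := Φx (q t) |X t α - X t z|) (K := K) (K2 := K2)
        (by norm_num) (by rw [Gd_absR h hX hz t]; ring) hξ0 hux hr hK2 hc hD hG hq1t hC
      rw [neg_one_mul] at h1
      exact h1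
  have hw1 : |w (0, α)| * Real.exp (2 * lam u X t α) ≤
      K1 * |X t α - X t z| * Real.exp K := by
    have e1 : |w (0, α)| * Real.exp (2 * lam u X t α) =
        |w (t, X t α)| * Real.exp (lam u X t α) := by
      rw [w_along h hX t α, abs_mul, Real.abs_exp, mul_assoc, ← Real.exp_add]
      ring_nf
    rw [e1]
    have e2 : Real.exp (lam u X t α) ≤ Real.exp K :=
      Real.exp_le_exp.2 ((le_abs_self _).trans (hb t α ht).2.2.2.2.2.1)
    exact mul_le_mul (hw t α z ht ha.z0) e2 (Real.exp_pos _).le (by positivity)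
  have e3 : ‖|w (0, α)| * qD Φ Φx Φq q q1 u X z t α‖ = |w (0, α)| * Real.exp (2 * lam u X t α) *
      |2 * px u (t, X t α) * Φ (q t) |X t α - X t z| +
      (u (t, X t α) - u (t, X t z)) *
        (if z < α then Φx (q t) |X t α - X t z| else -Φx (q t) |X t α - X t z|) +
      Φq (q t) |X t α - X t z| * q1 t| := by
    unfold qD
    rw [Real.norm_eq_abs, abs_mul, abs_abs, abs_mul, Real.abs_exp, ← mul_assoc]
  rw [e3]
  generalize |X t α - X t z| = ξ at *
  calc _ ≤ K1 * ξ * Real.exp K * ((K * C + K2 * C + C * K4) / ξ) :=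
        mul_le_mul hw1 hcore (abs_nonneg _) (by positivity)
    _ = K1 * Real.exp K * (K * C + K2 * C + C * K4) := by field_simp

theorem QI_integrable (hΦ : WF Φ Φx Φq) (hq : ∀ t, HasDerivAt q (q1 t) t) (hq1 : Continuous q1)
    (h : CSol w u) (hX : Flow u X) (ha : Arc w z p r) (t : ℝ) :
    IntegrableOn (fun α => |w (0, α)| * (qI Φ q u X z t α - qI Φ q u X z 0 α)) (Ioo p r) := by
  have hqc : Continuous q := continuous_iff_continuousAt.2 fun t => (hq t).continuousAt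
  obtain ⟨K, hK, hb⟩ := qD_bound hΦ hqc hq1 h hX ha |t|
  refine Integrable.mono' (JIder_const (K * |t|)) (qI_meas hΦ hqc hq1 h hX ha t) ?_
  refine (ae_restrict_iff' measurableSet_Ioo).2 (Filter.Eventually.of_forall fun α hα => ?_)
  have key := Convex.norm_image_sub_le_of_norm_hasDerivWithin_le
    (f := fun s => |w (0, α)| * qI Φ q u X z s α)
    (f' := fun s => |w (0, α)| * qD Φ Φx Φq q q1 u X z s α)
    (s := Icc (-|t|) |t|) (C := K) (x := 0) (y := t)
    (fun s _ => ((qI_hasDerivAt hΦ hq h hX ha s α hα).const_mul _).hasDerivWithinAt)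
    (fun s hs => hb s α (abs_le.2 hs) hα) (convex_Icc _ _)
    ⟨neg_nonpos.2 (abs_nonneg t), abs_nonneg t⟩ ⟨neg_abs_le t, le_abs_self t⟩
  rw [sub_zero, Real.norm_eq_abs t] at key
  rw [mul_sub]
  exact key

theorem QD_integrable (hΦ : WF Φ Φx Φq) (hq : ∀ t, HasDerivAt q (q1 t) t) (hq1 : Continuous q1)
    (h : CSol w u) (hX : Flow u X) (ha : Arc w z p r) (t : ℝ) :
    IntegrableOn (fun α => |w (0, α)| * qD Φ Φx Φq q q1 u X z t α) (Ioo p r) := by
  have hqc : Continuous q := continuous_iff_continuousAt.2 fun t => (hq t).continuousAt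
  obtain ⟨K, hK, hb⟩ := qD_bound hΦ hqc hq1 h hX ha |t|
  refine Integrable.mono' (JIder_const K) (qD_meas hΦ hqc hq1 h hX ha t) ?_
  exact (ae_restrict_iff' measurableSet_Ioo).2
    (Filter.Eventually.of_forall fun α hα => hb t α le_rfl hα)

/-- `QI` is differentiable -/
theorem QI_hasDerivAt (hΦ : WF Φ Φx Φq) (hq : ∀ t, HasDerivAt q (q1 t) t) (hq1 : Continuous q1)
    (h : CSol w u) (hX : Flow u X) (ha : Arc w z p r) (t : ℝ) :
    HasDerivAt (QI Φ q w u X z p r) (QD Φ Φx Φq q q1 w u X z p r t) t := by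
  have hqc : Continuous q := continuous_iff_continuousAt.2 fun t => (hq t).continuousAt
  obtain ⟨K, hK, hb⟩ := qD_bound hΦ hqc hq1 h hX ha (|t| + 1)
  have key := hasDerivAt_integral_of_dominated_loc_of_deriv_le
    (μ := volume.restrict (Ioo p r))
    (F := fun s α => |w (0, α)| * (qI Φ q u X z s α - qI Φ q u X z 0 α))
    (F' := fun s α => |w (0, α)| * qD Φ Φx Φq q q1 u X z s α) (x₀ := t) (s := Metric.ball t 1)
    (bound := fun _ => K) (Metric.ball_mem_nhds t one_pos)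
    (Filter.Eventually.of_forall fun s => qI_meas hΦ hqc hq1 h hX ha s)
    (QI_integrable hΦ hq hq1 h hX ha t)
    (qD_meas hΦ hqc hq1 h hX ha t)
    ((ae_restrict_iff' measurableSet_Ioo).2
      (Filter.Eventually.of_forall fun α hα s hs => hb s α (JIder_ball hs) hα))
    (JIder_const K)
    ((ae_restrict_iff' measurableSet_Ioo).2
      (Filter.Eventually.of_forall fun α hα s _ =>
        ((qI_hasDerivAt hΦ hq h hX ha s α hα).sub_const _).const_mul _))
  exact key.2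

/-- `QD` is continuous -/
theorem QD_cont (hΦ : WF Φ Φx Φq) (hq : ∀ t, HasDerivAt q (q1 t) t) (hq1 : Continuous q1)
    (h : CSol w u) (hX : Flow u X) (ha : Arc w z p r) :
    Continuous (QD Φ Φx Φq q q1 w u X z p r) := by
  have hqc : Continuous q := continuous_iff_continuousAt.2 fun t => (hq t).continuousAt
  rw [continuous_iff_continuousAt]
  intro t
  obtain ⟨K, hK, hb⟩ := qD_bound hΦ hqc hq1 h hX ha (|t| + 1)
  refine continuousAt_of_dominated (bound := fun _ => K)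
    (Filter.Eventually.of_forall fun s => qD_meas hΦ hqc hq1 h hX ha s) ?_ (JIder_const K) ?_
  · filter_upwards [Metric.ball_mem_nhds t one_pos] with s hs
    exact (ae_restrict_iff' measurableSet_Ioo).2
      (Filter.Eventually.of_forall fun α hα => hb s α (JIder_ball hs) hα)
  · exact (ae_restrict_iff' measurableSet_Ioo).2
      (Filter.Eventually.of_forall fun α hα =>
        (continuous_const.mul (qD_cont_t hΦ hqc hq1 h hX ha α hα)).continuousAt)

theorem QI_zero (Φ : ℝ → ℝ → ℝ) (q : ℝ → ℝ) (w u : ℝ × ℝ → ℝ) (X : ℝ → ℝ → ℝ) (z p r : ℝ) :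
    QI Φ q w u X z p r 0 = 0 := by
  simp [QI]

end Pool.Agent.H45.DA
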