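import Pool.Agent.H45.DA.QFam
import Pool.Agent.H45.DY.Arcs
import Pool.Agent.H90.DA.Defs

/-!
# Class (A), dynamics: the weights `(cot(ξ/2) - q)₊²/4` and the Eulerian form of the derivatives

* `wf_Pq`: `Pq, dPq` of `H90/DA/Defs.lean` are a family of weights (`WF`), with `∂q Pq = - (ct - q)₊/2`.
* `q_el`, `q_el_cont`: `t ↦ q (el X e c t)` is `C¹`.
* `qf_qk`: `QF (qk k) (dqk k)`.
* `QD_left`, `QD_right`: the derivative `QD` as an integral over `x`, base zero at the left or at the right end.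
* `TA_eq`, `BNA_eq`, `BPA_eq`: with `f x = w (t, X t c + x)`, `l = el X e c t`.
-/

set_option autoImplicit false
open Real Set MeasureTheory Filter Topology

namespace Pool.Agent.H45.DA
open Pool.Agent.H45.FL Pool.Agent.H51.DG Pool.Agent.H45.DY Pool.Agent.H90.DA

/-- the square of the positive part is `C¹` -/
theorem possq_hasDerivAt (y : ℝ) : HasDerivAt (fun y : ℝ => max y 0 ^ 2) (2 * max y 0) y := by
  rcases lt_trichotomy y 0 with h | h | h
  · have h1 : (fun y : ℝ => max y 0 ^ 2) =ᶠ[𝓝 y] fun _ => 0 := by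
      filter_upwards [Iio_mem_nhds h] with z hz
      rw [max_eq_right (le_of_lt hz)]
      norm_num
    rw [max_eq_right h.le, mul_zero]
    exact (hasDerivAt_const y (0:ℝ)).congr_of_eventuallyEq h1
  · subst h
    rw [max_self, mul_zero, hasDerivAt_iff_isLittleO_nhds_zero]
    have h1 : (fun z : ℝ => z ^ 2) =o[𝓝 0] fun z : ℝ => z := by
      have := Asymptotics.isLittleO_pow_id (𝕜 := ℝ) (n := 2) one_lt_two
      exact this
    refine Asymptotics.IsBigO.trans_isLittleO (Asymptotics.IsBigO.of_bound 1 ?_) h1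
    refine Filter.Eventually.of_forall fun z => ?_
    rw [zero_add, max_self, one_mul]
    simp only [Real.norm_eq_abs, smul_eq_mul, mul_zero, sub_zero]
    rw [zero_pow two_ne_zero, sub_zero, abs_of_nonneg (sq_nonneg _), abs_of_nonneg (sq_nonneg _)]
    rcases le_total z 0 with hz | hz
    · rw [max_eq_right hz]
      nlinarith
    · rw [max_eq_left hz]
  · have h1 : (fun y : ℝ => max y 0 ^ 2) =ᶠ[𝓝 y] fun y => y ^ 2 := by
      filter_upwards [Ioi_mem_nhds h] with z hz
      rw [max_eq_left (le_of_lt hz)]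
    rw [max_eq_left h.le]
    have h2 := (hasDerivAt_pow 2 y).congr_of_eventuallyEq h1
    simpa using h2

theorem sin_half_pos {x : ℝ} (h0 : 0 < x) (h1 : x < 2 * π) : 0 < Real.sin (x / 2) :=
  Real.sin_pos_of_pos_of_lt_pi (by linarith) (by linarith)

theorem ct_der {x : ℝ} (h0 : 0 < x) (h1 : x < 2 * π) :
    HasDerivAt ct (-((1 + ct x ^ 2) / 2)) x := by
  have hs := sin_half_pos h0 h1
  have h := SG_ct_deriv (c := x) hs.ne'
  have e : -((1 + ct x ^ 2) / 2) = -(1 / 2) * (1 / Real.sin (x / 2) ^ 2) := by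
    unfold ct
    have h2 := Real.sin_sq_add_cos_sq (x / 2)
    field_simp
    linear_combination -h2
  rw [e]
  exact h

/-- derivative of the weight in `q` -/
noncomputable def qPq (q ξ : ℝ) : ℝ := -(max (ct ξ - q) 0 / 2)

theorem ct_bd {x : ℝ} (h0 : 0 < x) (h1 : x ≤ π) :
    0 ≤ ct x ∧ ct x * x ≤ π ∧ |2 * ct x - x * ct x ^ 2| ≤ 4 := by
  have hs0 := sin_half_pos h0 (by linarith [Real.pi_pos])
  have hc0 : 0 ≤ ct x :=
    div_nonneg (Real.cos_nonneg_of_mem_Icc ⟨by linarith, by linarith⟩) hs0.le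
  have h2 := Real.mul_le_sin (x := x / 2) (by linarith) (by linarith)
  have h3 : ct x * x ≤ π := by
    unfold ct
    rw [div_mul_eq_mul_div, div_le_iff₀ hs0]
    have h4 : x ≤ π * Real.sin (x / 2) := by
      have h5 : 2 / π * (x / 2) = x / π := by ring
      rw [h5, div_le_iff₀ Real.pi_pos] at h2
      linarith
    nlinarith [Real.cos_le_one (x / 2)]
  refine ⟨hc0, h3, ?_⟩
  -- `1 - x/2 ct x = (sin - x/2 cos)/sin ∈ [0, π x²/16]`
  have n1 : 0 ≤ Real.sin (x / 2) - x / 2 * Real.cos (x / 2) := by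
    rcases lt_or_ge (x / 2) (π / 2) with h5 | h5
    · have := Real.lt_tan (x := x / 2) (by linarith) h5
      rw [Real.tan_eq_sin_div_cos] at this
      have hc : 0 < Real.cos (x / 2) := Real.cos_pos_of_mem_Ioo ⟨by linarith, h5⟩
      rw [lt_div_iff₀ hc] at this
      linarith
    · have : x / 2 = π / 2 := le_antisymm (by linarith) h5
      rw [this, Real.cos_pi_div_two, Real.sin_pi_div_two]
      norm_num
  have n2 : Real.sin (x / 2) - x / 2 * Real.cos (x / 2) ≤ (x / 2) ^ 3 / 2 := by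
    have h3 := Real.sin_le (x := x / 2) (by linarith)
    have h4 := Real.one_sub_sq_div_two_le_cos (x := x / 2)
    have h5 : x / 2 * (1 - (x / 2) ^ 2 / 2) ≤ x / 2 * Real.cos (x / 2) :=
      mul_le_mul_of_nonneg_left h4 (by linarith)
    nlinarith
  have e : 2 * ct x - x * ct x ^ 2 =
      2 * ct x * ((Real.sin (x / 2) - x / 2 * Real.cos (x / 2)) / Real.sin (x / 2)) := by
    unfold ct
    field_simp
  have h4 : x ≤ π * Real.sin (x / 2) := by
    have h5 : 2 / π * (x / 2) = x / π := by ring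
    rw [h5, div_le_iff₀ Real.pi_pos] at h2
    linarith
  have n3 : (Real.sin (x / 2) - x / 2 * Real.cos (x / 2)) / Real.sin (x / 2) ≤ π * x ^ 2 / 16 := by
    rw [div_le_iff₀ hs0]
    calc Real.sin (x / 2) - x / 2 * Real.cos (x / 2) ≤ (x / 2) ^ 3 / 2 := n2
      _ = x ^ 2 / 16 * x := by ring
      _ ≤ x ^ 2 / 16 * (π * Real.sin (x / 2)) := mul_le_mul_of_nonneg_left h4 (by positivity)
      _ = π * x ^ 2 / 16 * Real.sin (x / 2) := by ring
  have n4 : 0 ≤ (Real.sin (x / 2) - x / 2 * Real.cos (x / 2)) / Real.sin (x / 2) :=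
    div_nonneg n1 hs0.le
  rw [e, abs_of_nonneg (mul_nonneg (by positivity) n4)]
  have hπ : π ≤ 3.15 := Real.pi_lt_d2.le
  have hπ0 := Real.pi_pos
  calc 2 * ct x * ((Real.sin (x / 2) - x / 2 * Real.cos (x / 2)) / Real.sin (x / 2))
      ≤ 2 * ct x * (π * x ^ 2 / 16) := mul_le_mul_of_nonneg_left n3 (by positivity)
    _ = (ct x * x) * (π * x / 8) := by ring
    _ ≤ π * (π * x / 8) := mul_le_mul_of_nonneg_right h3 (by positivity)
    _ ≤ π * (π * π / 8) := by gcongr
    _ ≤ 4 := by nlinarith [mul_pos hπ0 hπ0]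

theorem Pq_bound (Q : ℝ) (hQ : 0 ≤ Q) {q ξ : ℝ} (hq : |q| ≤ Q) (h0 : 0 < ξ) (h1 : ξ < 2 * π) :
    max (ct ξ - q) 0 ≤ (4 * π + 4 * π * Q) / ξ ∧
      |max (ct ξ - q) 0 * (2 * max (ct ξ - q) 0 - ξ * (1 + ct ξ ^ 2))| ≤
        (4 * π + 4 * π * Q) / ξ * (4 + 4 * Q + 2 * π * Q ^ 2 + 2 * π) ∧
      max (ct ξ - q) 0 * (1 + ct ξ ^ 2) ≤
        (4 * π + 4 * π * Q) / ξ * ((4 * π ^ 2 + (4 * π + 4 * π * Q) ^ 2) / ξ ^ 2) := by
  have hπ := Real.pi_pos
  obtain ⟨hq1, hq2⟩ := abs_le.1 hq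
  obtain ⟨s, hs⟩ : ∃ s, s = 1 / ξ := ⟨_, rfl⟩
  have hs1 : 1 ≤ 2 * π * s := by
    rw [hs, mul_one_div, le_div_iff₀ h0]
    linarith
  have hs0 : 0 < s := hs ▸ by positivity
  have hsx : s * ξ = 1 := by rw [hs]; field_simp
  by_cases hy : ct ξ ≤ q
  · rw [max_eq_right (by linarith)]
    refine ⟨by positivity, ?_, ?_⟩
    · rw [zero_mul, abs_zero]; positivity
    · rw [zero_mul]; positivity
  have hy' : q < ct ξ := not_le.1 hy
  rw [max_eq_left (by linarith)]
  have key : ct ξ - q ≤ (4 * π + 4 * π * Q) / ξ ∧ |ct ξ| ≤ (4 * π + 4 * π * Q) / ξ ∧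
      |2 * ct ξ - ξ * ct ξ ^ 2| ≤ 4 + 2 * Q + 2 * π * Q ^ 2 := by
    have e1 : (4 * π + 4 * π * Q) / ξ = (4 * π + 4 * π * Q) * s := by rw [hs]; ring
    rw [e1]
    have hQs : Q ≤ 2 * π * Q * s := by nlinarith
    rcases le_or_gt ξ π with hξ | hξ
    · obtain ⟨c0, c1, c2⟩ := ct_bd h0 hξ
      have c3 : ct ξ ≤ π * s := by
        calc ct ξ = ct ξ * ξ * s := by rw [mul_assoc, mul_comm ξ s, hsx, mul_one]
          _ ≤ π * s := mul_le_mul_of_nonneg_right c1 hs0.le
      refine ⟨by nlinarith, ?_, ?_⟩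
      · rw [abs_of_nonneg c0]
        nlinarith
      · refine c2.trans ?_
        nlinarith [sq_nonneg Q]
    · have c0 : ct ξ ≤ 0 := by
        have hs0 := sin_half_pos h0 h1
        refine div_nonpos_of_nonpos_of_nonneg ?_ hs0.le
        exact Real.cos_nonpos_of_pi_div_two_le_of_le (by linarith) (by linarith)
      have c1 : |ct ξ| ≤ Q := by
        rw [abs_of_nonpos c0]
        linarith
      refine ⟨by nlinarith, ?_, ?_⟩
      · refine c1.trans ?_
        nlinarith
      · have c2 : ct ξ ^ 2 ≤ Q ^ 2 := by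
          rw [← sq_abs]
          exact pow_le_pow_left₀ (abs_nonneg _) c1 2
        calc |2 * ct ξ - ξ * ct ξ ^ 2| ≤ |2 * ct ξ| + |ξ * ct ξ ^ 2| := abs_sub _ _
          _ = 2 * |ct ξ| + ξ * ct ξ ^ 2 := by
              rw [abs_mul, abs_two, abs_of_nonneg (a := ξ * ct ξ ^ 2) (by positivity)]
          _ ≤ 2 * Q + 2 * π * Q ^ 2 := by
              have := mul_le_mul h1.le c2 (sq_nonneg _) (by positivity)
              linarith
          _ ≤ 4 + 2 * Q + 2 * π * Q ^ 2 := by linarith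
  obtain ⟨k1, k2, k3⟩ := key
  have hy0 : 0 ≤ ct ξ - q := by linarith
  have hD : 0 ≤ (4 * π + 4 * π * Q) / ξ := by positivity
  refine ⟨k1, ?_, ?_⟩
  · rw [abs_mul, abs_of_nonneg hy0]
    refine mul_le_mul k1 ?_ (abs_nonneg _) hD
    have e2 : 2 * (ct ξ - q) - ξ * (1 + ct ξ ^ 2) = (2 * ct ξ - ξ * ct ξ ^ 2) - 2 * q - ξ := by ring
    rw [e2]
    calc |(2 * ct ξ - ξ * ct ξ ^ 2) - 2 * q - ξ|
        ≤ |2 * ct ξ - ξ * ct ξ ^ 2| + |2 * q| + |ξ| := by
          refine (abs_sub _ _).trans (add_le_add (abs_sub _ _) le_rfl)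
      _ ≤ (4 + 2 * Q + 2 * π * Q ^ 2) + 2 * Q + 2 * π := by
          have h5 : |2 * q| ≤ 2 * Q := by
            rw [abs_mul, abs_two]; linarith
          have h6 : |ξ| ≤ 2 * π := by rw [abs_of_pos h0]; linarith
          linarith
      _ = _ := by ring
  · refine mul_le_mul k1 ?_ (by positivity) hD
    have h7 : ct ξ ^ 2 ≤ ((4 * π + 4 * π * Q) / ξ) ^ 2 := by
      rw [← sq_abs]
      exact pow_le_pow_left₀ (abs_nonneg _) k2 2
    have h8 : (1:ℝ) ≤ 4 * π ^ 2 / ξ ^ 2 := by
      rw [le_div_iff₀ (by positivity)]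
      nlinarith
    calc 1 + ct ξ ^ 2 ≤ 4 * π ^ 2 / ξ ^ 2 + ((4 * π + 4 * π * Q) / ξ) ^ 2 := add_le_add h8 h7
      _ = (4 * π ^ 2 + (4 * π + 4 * π * Q) ^ 2) / ξ ^ 2 := by
          field_simp

theorem ct_contOn : ContinuousOn ct (Ioo 0 (2 * π)) := fun _ hx =>
  (ct_der hx.1 hx.2).continuousAt.continuousWithinAt

theorem pos_contOn : ContinuousOn (fun z : ℝ × ℝ => max (ct z.2 - z.1) 0)
    (univ ×ˢ Ioo 0 (2 * π)) := by
  have h1 : ContinuousOn (fun z : ℝ × ℝ => ct z.2) (univ ×ˢ Ioo 0 (2 * π)) :=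
    ct_contOn.comp continuous_snd.continuousOn fun z hz => hz.2
  exact (h1.sub continuous_fst.continuousOn).sup continuousOn_const

/-- the weights `(cot(ξ/2) - q)₊²/4` -/
theorem wf_Pq : WF Pq dPq qPq := by
  refine ⟨?_, ?_, ?_, ?_, ?_⟩
  · intro q x q1 x1 t h0 h1 hq hx
    have hc : HasDerivAt (fun s => ct (x s)) (-((1 + ct (x t) ^ 2) / 2) * x1) t :=
      HasDerivAt.comp (h₂ := ct) (h := x) t (ct_der h0 h1) hx
    have h2 := (possq_hasDerivAt (ct (x t) - q t)).comp t (hc.sub hq)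
    have h3 := h2.div_const 4
    refine h3.congr_deriv ?_
    unfold dPq qPq
    ring
  · exact (pos_contOn.pow 2).div_const 4
  · have h1 : ContinuousOn (fun z : ℝ × ℝ => ct z.2) (univ ×ˢ Ioo 0 (2 * π)) :=
      ct_contOn.comp continuous_snd.continuousOn fun z hz => hz.2
    exact ((pos_contOn.mul (continuousOn_const.add (h1.pow 2))).div_const 4).neg
  · exact (pos_contOn.div_const 2).neg
  · intro Q m hm
    have hπ := Real.pi_pos
    obtain ⟨Q', hQ'⟩ : ∃ Q', Q' = max Q 0 := ⟨_, rfl⟩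
    have hQ0 : 0 ≤ Q' := hQ' ▸ le_max_right _ _
    obtain ⟨A, hA⟩ : ∃ A, A = 4 * π + 4 * π * Q' := ⟨_, rfl⟩
    have hA0 : 0 ≤ A := by rw [hA]; positivity
    refine ⟨A * (4 + 4 * Q' + 2 * π * Q' ^ 2 + 2 * π) + A * (4 * π ^ 2 + A ^ 2) + A, by positivity,
      ?_⟩
    intro q ξ hq h0 h1
    have h2 : ξ < 2 * π := by linarith
    obtain ⟨b1, b2, b3⟩ := Pq_bound Q' hQ0 (hq.trans (hQ' ▸ le_max_left _ _)) h0 h2
    rw [← hA] at b1 b2 b3
    have hp0 : 0 ≤ max (ct ξ - q) 0 := le_max_right _ _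
    refine ⟨?_, ?_, ?_⟩
    · have e : 2 * Pq q ξ + ξ * dPq q ξ =
          1 / 4 * (max (ct ξ - q) 0 * (2 * max (ct ξ - q) 0 - ξ * (1 + ct ξ ^ 2))) := by
        unfold Pq dPq
        ring
      rw [e, abs_mul, abs_of_pos (by norm_num : (0:ℝ) < 1 / 4)]
      have h3 : 0 ≤ A / ξ * (4 + 4 * Q' + 2 * π * Q' ^ 2 + 2 * π) := by positivity
      calc 1 / 4 * |max (ct ξ - q) 0 * (2 * max (ct ξ - q) 0 - ξ * (1 + ct ξ ^ 2))|
          ≤ A / ξ * (4 + 4 * Q' + 2 * π * Q' ^ 2 + 2 * π) := by linarith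
        _ = A * (4 + 4 * Q' + 2 * π * Q' ^ 2 + 2 * π) / ξ := by ring
        _ ≤ _ := by
            gcongr
            have : 0 ≤ A * (4 * π ^ 2 + A ^ 2) := by positivity
            linarith
    · unfold dPq
      rw [abs_neg, abs_of_nonneg (by positivity)]
      have h3 : 0 ≤ A / ξ * ((4 * π ^ 2 + A ^ 2) / ξ ^ 2) := by positivity
      calc max (ct ξ - q) 0 * (1 + ct ξ ^ 2) / 4 ≤ A / ξ * ((4 * π ^ 2 + A ^ 2) / ξ ^ 2) := by
            linarith
        _ = A * (4 * π ^ 2 + A ^ 2) / ξ ^ 3 := by field_simp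
        _ ≤ _ := by
            gcongr
            have : 0 ≤ A * (4 + 4 * Q' + 2 * π * Q' ^ 2 + 2 * π) := by positivity
            linarith
    · unfold qPq
      rw [abs_neg, abs_of_nonneg (by positivity)]
      calc max (ct ξ - q) 0 / 2 ≤ A / ξ := by linarith
        _ ≤ _ := by
            gcongr
            have h4 : 0 ≤ A * (4 + 4 * Q' + 2 * π * Q' ^ 2 + 2 * π) := by positivity
            have h5 : 0 ≤ A * (4 * π ^ 2 + A ^ 2) := by positivity
            linarith

/-! ### the function `q (el t)` -/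

section
variable {w u : ℝ × ℝ → ℝ} {X : ℝ → ℝ → ℝ} {e c T : ℝ} {q dq : ℝ → ℝ}

theorem q_el (hq : QF q dq) (h : Dyn w u X e c T) (t : ℝ) :
    HasDerivAt (fun s => q (el X e c s)) (dq (el X e c t) * (u (t, X t c) - u (t, X t e))) t :=
  (hq.der (el X e c t) (h.el_pos t) (h.el_lt t)).comp t (el_hasDerivAt h t)

theorem q_el_cont (hq : QF q dq) (h : Dyn w u X e c T) :
    Continuous fun t => dq (el X e c t) * (u (t, X t c) - u (t, X t e)) := by
  have hX : Continuous fun s : ℝ × ℝ => X s.1 s.2 := Flow.cont h.cs.vel h.fl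
  have h1 : ∀ z : ℝ, Continuous fun t : ℝ => X t z := fun z =>
    hX.comp (continuous_id.prodMk continuous_const)
  have h2 : ∀ z : ℝ, Continuous fun t : ℝ => u (t, X t z) := fun z =>
    h.cs.vel.sm.continuous.comp (continuous_id.prodMk (h1 z))
  have h3 : Continuous fun t => el X e c t := (h1 c).sub (h1 e)
  exact (hq.cont.comp_continuous h3 fun t => ⟨h.el_pos t, h.el_lt t⟩).mul ((h2 c).sub (h2 e))

end

/-- the choice `k (1/sin(l/2) - 1)₊` -/
theorem qf_qk {k : ℝ} (hk : 0 ≤ k) : QF (qk k) (dqk k) := by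
  have hπ := Real.pi_pos
  have hf : ∀ l, 0 < l → l < 2 * π → HasDerivAt (fun l => k * (1 / Real.sin (l / 2) - 1))
      (-(k * Real.cos (l / 2) / (2 * Real.sin (l / 2) ^ 2))) l := by
    intro l h0 h1
    have hs := sin_half_pos h0 h1
    have h2 : HasDerivAt (fun z : ℝ => Real.sin (z / 2)) (Real.cos (l / 2) * (1 / 2)) l :=
      ((hasDerivAt_id l).div_const 2).sin
    have h3 := (((hasDerivAt_const l (1:ℝ)).div h2 hs.ne').sub_const 1).const_mul k
    refine h3.congr_deriv ?_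
    field_simp
    ring
  refine ⟨?_, ?_, ?_⟩
  · intro l h0 h1
    unfold qk
    split_ifs with h
    · have hs := sin_half_pos h0 h1
      have : 1 ≤ 1 / Real.sin (l / 2) := by
        rw [le_div_iff₀ hs, one_mul]
        exact Real.sin_le_one _
      exact mul_nonneg hk (by linarith)
    · exact le_rfl
  · intro l h0 h1
    rcases lt_trichotomy l π with h | h | h
    · have e1 : qk k =ᶠ[𝓝 l] fun l => k * (1 / Real.sin (l / 2) - 1) := by
        filter_upwards [Iio_mem_nhds h] with z hz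
        exact if_pos hz
      rw [show dqk k l = -(k * Real.cos (l / 2) / (2 * Real.sin (l / 2) ^ 2)) from if_pos h]
      exact (hf l h0 h1).congr_of_eventuallyEq e1
    · subst h
      have e2 : dqk k π = 0 := if_neg (lt_irrefl _)
      rw [e2]
      have h3 := hf π h0 h1
      have e3 : -(k * Real.cos (π / 2) / (2 * Real.sin (π / 2) ^ 2)) = 0 := by
        rw [Real.cos_pi_div_two]; simp
      rw [e3] at h3
      have e4 : k * (1 / Real.sin (π / 2) - 1) = 0 := by
        rw [Real.sin_pi_div_two]; simp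
      have e5 : qk k π = 0 := if_neg (lt_irrefl _)
      rw [← hasDerivWithinAt_univ, ← Iic_union_Ici (a := π)]
      refine HasDerivWithinAt.union ?_ ?_
      · refine (h3.hasDerivWithinAt (s := Iic π)).congr ?_ ?_
        · intro z hz
          rcases lt_or_eq_of_le (show z ≤ π from hz) with hz | hz
          · exact if_pos hz
          · rw [hz, e5, e4]
        · rw [e5, e4]
      · refine (hasDerivWithinAt_const π (Ici π) (0:ℝ)).congr ?_ ?_
        · intro z hz
          exact if_neg (not_lt.2 hz)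
        · exact e5
    · have e1 : qk k =ᶠ[𝓝 l] fun _ => 0 := by
        filter_upwards [Ioi_mem_nhds h] with z hz
        exact if_neg (not_lt.2 (le_of_lt hz))
      rw [show dqk k l = 0 from if_neg (not_lt.2 h.le)]
      exact (hasDerivAt_const l (0:ℝ)).congr_of_eventuallyEq e1
  · have h1 : ContinuousOn (fun l => -(k * Real.cos (l / 2) / (2 * Real.sin (l / 2) ^ 2)))
        (Ioo 0 (2 * π)) := by
      refine ContinuousOn.neg (ContinuousOn.div ?_ ?_ ?_)
      · exact (continuous_const.mul (Real.continuous_cos.comp (continuous_id.div_const 2))).continuousOn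
      · exact (continuous_const.mul
          ((Real.continuous_sin.comp (continuous_id.div_const 2)).pow 2)).continuousOn
      · intro l hl
        have hs := sin_half_pos hl.1 hl.2
        positivity
    have e1 : ∀ l ∈ Ioo (0:ℝ) (2 * π), dqk k l =
        -(k * Real.cos (min l π / 2) / (2 * Real.sin (min l π / 2) ^ 2)) := by
      intro l hl
      unfold dqk
      split_ifs with h
      · rw [min_eq_left h.le]
      · rw [min_eq_right (not_lt.1 h), Real.cos_pi_div_two]
        simp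
    have h2 : ContinuousOn (fun l => -(k * Real.cos (min l π / 2) /
        (2 * Real.sin (min l π / 2) ^ 2))) (Ioo 0 (2 * π)) := by
      refine h1.comp (continuous_id.min continuous_const).continuousOn ?_
      intro l hl
      exact ⟨lt_min hl.1 hπ, (min_le_left _ _).trans_lt hl.2⟩
    exact h2.congr e1

/-! ### the Eulerian form -/

section
variable {w u : ℝ × ℝ → ℝ} {X : ℝ → ℝ → ℝ} {Φ Φx Φq : ℝ → ℝ → ℝ} {q q1 : ℝ → ℝ} {p r : ℝ}

theorem qd_exp (h : CSol w u) (hX : Flow u X) (t α : ℝ) (z : ℝ) :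
    |w (t, X t α)| * z * Real.exp (lam u X t α) =
      |w (0, α)| * (Real.exp (2 * lam u X t α) * z) := by
  rw [w_along h hX t α, abs_mul, Real.abs_exp, two_mul, Real.exp_add]
  ring

/-- base zero at the left end -/
theorem QD_left (h : CSol w u) (hX : Flow u X) (hpr : p < r) (t : ℝ) (ht : 0 ≤ t) :
    QD Φ Φx Φq q q1 w u X p p r t = ∫ x in (0:ℝ)..(X t r - X t p), |w (t, X t p + x)| *
      (2 * px u (t, X t p + x) * Φ (q t) x + (u (t, X t p + x) - u (t, X t p)) * Φx (q t) x +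
        Φq (q t) x * q1 t) := by
  have hm := Flow.mono h.vel hX t
  have g := charc_gen h hX t ht p r (-X t p) (fun x => |w (t, X t p + x)| *
      (2 * px u (t, X t p + x) * Φ (q t) x + (u (t, X t p + x) - u (t, X t p)) * Φx (q t) x +
        Φq (q t) x * q1 t))
  have h1 : X t p < X t r := hm hpr
  rw [intervalIntegral.integral_of_le (by linarith), integral_Ioc_eq_integral_Ioo]
  have e1 : X t p + -X t p = 0 := by ring
  have e2 : X t r + -X t p = X t r - X t p := by ring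
  rw [e1, e2] at g
  rw [g]
  unfold QD
  refine setIntegral_congr_fun measurableSet_Ioo fun α hα => ?_
  have h2 : X t p < X t α := hm hα.1
  have e3 : X t p + (X t α + -X t p) = X t α := by ring
  have e4 : X t α + -X t p = X t α - X t p := by ring
  rw [e3, e4, qd_exp h hX]
  unfold qD
  rw [if_pos hα.1, abs_of_pos (sub_pos.2 h2)]

/-- base zero at the right end -/
theorem QD_right (h : CSol w u) (hX : Flow u X) (hpr : p < r) (t : ℝ) (ht : 0 ≤ t) :
    QD Φ Φx Φq q q1 w u X r p r t = ∫ x in (X t p - X t r)..(0:ℝ), |w (t, X t r + x)| *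
      (2 * px u (t, X t r + x) * Φ (q t) (-x) - (u (t, X t r + x) - u (t, X t r)) * Φx (q t) (-x) +
        Φq (q t) (-x) * q1 t) := by
  have hm := Flow.mono h.vel hX t
  have g := charc_gen h hX t ht p r (-X t r) (fun x => |w (t, X t r + x)| *
      (2 * px u (t, X t r + x) * Φ (q t) (-x) - (u (t, X t r + x) - u (t, X t r)) * Φx (q t) (-x) +
        Φq (q t) (-x) * q1 t))
  have h1 : X t p < X t r := hm hpr
  rw [intervalIntegral.integral_of_le (by linarith), integral_Ioc_eq_integral_Ioo]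
  have e1 : X t r + -X t r = 0 := by ring
  have e2 : X t p + -X t r = X t p - X t r := by ring
  rw [e1, e2] at g
  rw [g]
  unfold QD
  refine setIntegral_congr_fun measurableSet_Ioo fun α hα => ?_
  have h2 : X t α < X t r := hm hα.2
  have e3 : X t r + (X t α + -X t r) = X t α := by ring
  have e4 : -(X t α + -X t r) = X t r - X t α := by ring
  rw [e3, e4, qd_exp h hX]
  unfold qD
  rw [if_neg (not_lt.2 hα.2.le), abs_of_neg (sub_neg.2 h2), neg_sub]
  ring

end

end Pool.Agent.H45.DA
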